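import Pool.Agent.H69.Loc.DeformDefs

/-!
# Project FOLD2: deformation of chains
-/

set_option autoImplicit false

open Finset

namespace Pool.Agent.H69.Loc

open Pool.Agent.H85.Fold

variable {V D : Type} [DecidableEq V] [Fintype V] [Fintype D] [DecidableEq D]

omit [DecidableEq D] in
private theorem dfa_nonneg (x : D → ℝ) : 0 ≤ nD x := Finset.sum_nonneg fun _ _ => sq_nonneg _

omit [DecidableEq D] in
private theorem dfa_smul (r : ℝ) (x : D → ℝ) : nD (r • x) = r ^ 2 * nD x := by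
  unfold nD
  rw [Finset.mul_sum]
  refine Finset.sum_congr rfl fun d _ => ?_
  rw [Pi.smul_apply, smul_eq_mul, mul_pow]

omit [DecidableEq D] in
private theorem dfa_add (x y : D → ℝ) : nD (x + y) ≤ 2 * nD x + 2 * nD y := by
  unfold nD
  rw [Finset.mul_sum, Finset.mul_sum, ← Finset.sum_add_distrib]
  refine Finset.sum_le_sum fun d _ => ?_
  rw [Pi.add_apply]
  nlinarith [sq_nonneg (x d - y d)]

omit [DecidableEq D] in
private theorem dfa_add3 (x y z : D → ℝ) : nD (x + y + z) ≤ 3 * nD x + 3 * nD y + 3 * nD z := by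
  unfold nD
  rw [Finset.mul_sum, Finset.mul_sum, Finset.mul_sum, ← Finset.sum_add_distrib,
    ← Finset.sum_add_distrib]
  refine Finset.sum_le_sum fun d _ => ?_
  rw [Pi.add_apply, Pi.add_apply]
  nlinarith [sq_nonneg (x d - y d), sq_nonneg (x d - z d), sq_nonneg (y d - z d)]

omit [DecidableEq D] in
private theorem dfa_neg (x : D → ℝ) : nD (-x) = nD x := by
  unfold nD
  refine Finset.sum_congr rfl fun d _ => ?_
  rw [Pi.neg_apply, neg_sq]

private theorem dfa_bound (L : (D → ℝ) →ₗ[ℝ] (D → ℝ)) :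
    ∃ C : ℝ, 0 ≤ C ∧ ∀ x, nD (L x) ≤ C * nD x := by
  refine ⟨∑ d, ∑ e, (L (Pi.single e 1) d) ^ 2,
    Finset.sum_nonneg fun _ _ => Finset.sum_nonneg fun _ _ => sq_nonneg _, fun x => ?_⟩
  have h1 : ∀ d, L x d = ∑ e, L (Pi.single e 1) d * x e := by
    intro d
    have h2 := LinearMap.pi_apply_eq_sum_univ L x
    rw [h2, Finset.sum_apply]
    refine Finset.sum_congr rfl fun e _ => ?_
    have h3 : (fun j => if e = j then (1 : ℝ) else 0) = Pi.single e 1 := by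
      funext j
      rw [Pi.single_apply]
      simp [eq_comm]
    rw [Pi.smul_apply, smul_eq_mul, mul_comm, h3]
  unfold nD
  rw [Finset.sum_mul]
  refine Finset.sum_le_sum fun d _ => ?_
  rw [h1 d]
  exact Finset.sum_mul_sq_le_sq_mul_sq _ _ _

/-- the common kernel -/
private def dfaK (B : V → (D → ℝ) →ₗ[ℝ] (D → ℝ)) (σ : Finset V) : Submodule ℝ (D → ℝ) where
  carrier := {y | ∀ v ∈ σ, B v y = 0}
  add_mem' := by
    intro a b ha hb v hv
    rw [map_add, ha v hv, hb v hv, add_zero]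
  zero_mem' := fun v _ => map_zero _
  smul_mem' := by
    intro r a ha v hv
    rw [map_smul, ha v hv, smul_zero]

omit [Fintype V] [DecidableEq D] in
/-- a linear section of `B v` -/
private theorem dfa_section {G : SimpleGraph V} {U : Finset V}
    {B : V → (D → ℝ) →ₗ[ℝ] (D → ℝ)} (h : IsLim G U B) {σ : Finset V} {v : V} (hv : v ∉ σ)
    (hU : insert v σ ⊆ U) (hcl : Cl G (insert v σ)) :
    ∃ L : (D → ℝ) →ₗ[ℝ] (D → ℝ), (∀ x, ∀ u ∈ σ, B u (L x) = 0) ∧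
      ∀ x, (∀ u ∈ insert v σ, B u x = 0) → B v (L x) = x := by
  let E : dfaK B σ →ₗ[ℝ] (D → ℝ) := (B v).comp (dfaK B σ).subtype
  obtain ⟨r, hr⟩ := LinearMap.exists_rightInverse_of_surjective E.rangeRestrict
    (LinearMap.range_rangeRestrict E)
  obtain ⟨L, hL⟩ := LinearMap.exists_extend r
  refine ⟨(dfaK B σ).subtype.comp L, fun x u hu => (L x).2 u hu, fun x hx => ?_⟩
  obtain ⟨m, hm1, hm2⟩ := h.lift σ v hv hU hcl x hx
  have hmem : x ∈ LinearMap.range E := ⟨⟨m, fun u hu => hm1 u hu⟩, hm2⟩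
  have h1 : L x = r ⟨x, hmem⟩ := by
    rw [← hL]
    rfl
  have h2 : E (r ⟨x, hmem⟩) = x := by
    have h3 := congrArg Subtype.val (LinearMap.congr_fun hr ⟨x, hmem⟩)
    exact h3
  have h4 : E (L x) = x := by rw [h1, h2]
  exact h4

private theorem dfa_simplex {G : SimpleGraph V} {U : Finset V}
    {B : V → (D → ℝ) →ₗ[ℝ] (D → ℝ)} (hB : IsLim G U B) (σ : Finset V) (hU : σ ⊆ U)
    (hσ : Cl G σ) :
    ∃ C : ℝ, 0 ≤ C ∧ ∀ (η δ : ℝ) (A : V → (D → ℝ) →ₗ[ℝ] (D → ℝ)), η ≤ 1 →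
      IsClose G U B A η δ → ∀ (Ω : Type) [Fintype Ω] (s : V → Ω → Ω), IsAct G s →
        ∀ z : Ω → D → ℝ, (∀ ω, ∀ v ∈ σ, B v (z ω) = 0) →
          ∃ z' : Ω → D → ℝ, (∀ v ∈ σ, ∀ ω, z' (s v ω) = -A v (z' ω)) ∧
            ∑ ω, nD (z ω - z' ω) ≤ C * η ^ 2 * ∑ ω, nD (z ω) := by
  induction σ using Finset.induction_on with
  | empty =>
    refine ⟨0, le_rfl, fun η δ A _ _ Ω _ s _ z _ => ⟨z, fun v hv =>
      absurd hv (Finset.notMem_empty v), ?_⟩⟩
    refine le_of_eq ?_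
    rw [zero_mul, zero_mul]
    refine Finset.sum_eq_zero fun ω _ => ?_
    simp [nD]
  | insert v σ hv ih =>
    have hcσ : Cl G σ := fun a ha b hb hab =>
      hσ a (Finset.mem_insert_of_mem ha) b (Finset.mem_insert_of_mem hb) hab
    have hUσ : σ ⊆ U := (Finset.subset_insert v σ).trans hU
    have hvU : v ∈ U := hU (Finset.mem_insert_self v σ)
    obtain ⟨C, hC0, hC⟩ := ih hUσ hcσ
    obtain ⟨L, hL1, hL2⟩ := dfa_section hB hv hU hσ
    obtain ⟨CL, hCL0, hCL⟩ := dfa_bound L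
    obtain ⟨CB, hCB0, hCB⟩ := dfa_bound (B v)
    refine ⟨6 * (2 * (C + 1) * CL) + 3 * (CB * (C * CL)), by positivity, ?_⟩
    intro η δ A hη hA Ω _ s hs z hz
    have hδ0 := hA.δ_pos
    have hδη := hA.δ_le
    have hη0 : 0 ≤ η := hδ0.le.trans hδη
    have hη1 : η ^ 2 ≤ 1 := by nlinarith
    have hδ2 : δ ^ 2 ≤ η ^ 2 := by nlinarith
    obtain ⟨m', hm1, hm2⟩ := hC η δ A hη hA Ω s hs (fun ω => L (z ω))
      (fun ω u hu => hL1 _ u hu)
    have hZ0 : 0 ≤ ∑ ω, nD (z ω) := Finset.sum_nonneg fun ω _ => dfa_nonneg _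
    have hmn : ∑ ω, nD (L (z ω)) ≤ CL * ∑ ω, nD (z ω) := by
      rw [Finset.mul_sum]
      exact Finset.sum_le_sum fun ω _ => hCL _
    have hd : ∑ ω, nD (L (z ω) - m' ω) ≤ C * CL * η ^ 2 * ∑ ω, nD (z ω) := by
      refine hm2.trans ?_
      calc C * η ^ 2 * ∑ ω, nD (L (z ω)) ≤ C * η ^ 2 * (CL * ∑ ω, nD (z ω)) :=
            mul_le_mul_of_nonneg_left hmn (by positivity)
        _ = _ := by ring
    have hmn' : ∑ ω, nD (m' ω) ≤ 2 * (C + 1) * CL * ∑ ω, nD (z ω) := by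
      have h1 : ∑ ω, nD (m' ω) ≤ ∑ ω, (2 * nD (L (z ω) - m' ω) + 2 * nD (L (z ω))) := by
        refine Finset.sum_le_sum fun ω _ => ?_
        have h2 := dfa_add (-(L (z ω) - m' ω)) (L (z ω))
        rw [dfa_neg] at h2
        have h3 : -(L (z ω) - m' ω) + L (z ω) = m' ω := by abel
        rwa [h3] at h2
      rw [Finset.sum_add_distrib, ← Finset.mul_sum, ← Finset.mul_sum] at h1
      have h4 : C * CL * η ^ 2 * ∑ ω, nD (z ω) ≤ C * CL * ∑ ω, nD (z ω) := by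
        have h5 : 0 ≤ C * CL * ∑ ω, nD (z ω) := by positivity
        nlinarith
      calc ∑ ω, nD (m' ω) ≤ 2 * (C * CL * ∑ ω, nD (z ω)) + 2 * (CL * ∑ ω, nD (z ω)) := by
            linarith
        _ = _ := by ring
    have hbij : ∑ ω, nD (m' (s v ω)) = ∑ ω, nD (m' ω) := by
      have hinv : Function.Involutive (s v) := hs.inv v
      exact Equiv.sum_comp hinv.toPerm fun ω => nD (m' ω)
    refine ⟨fun ω => δ • (A v (m' ω) - m' (s v ω)), ?_, ?_⟩
    · intro u hu ω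
      rcases Finset.mem_insert.1 hu with rfl | huσ
      · show δ • (A u (m' (s u ω)) - m' (s u (s u ω))) =
          -A u (δ • (A u (m' ω) - m' (s u ω)))
        rw [hs.inv, map_smul, map_sub, hA.sq u hvU, ← smul_neg, neg_sub]
      · have huv : u ≠ v := fun h' => hv (h' ▸ huσ)
        have huU : u ∈ U := hU hu
        have hadj : G.Adj v u := hσ v (Finset.mem_insert_self _ _) u hu (Ne.symm huv)
        show δ • (A v (m' (s u ω)) - m' (s v (s u ω))) =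
          -A u (δ • (A v (m' ω) - m' (s v ω)))
        rw [hs.comm v u hadj, hm1 u huσ ω, hm1 u huσ (s v ω), map_smul, map_sub, map_neg,
          hA.comm v hvU u huU hadj, ← smul_neg, neg_sub, sub_neg_eq_add]
        congr 1
        abel
    · have h1 : ∀ ω, nD (z ω - δ • (A v (m' ω) - m' (s v ω))) ≤
          3 * (η ^ 2 * nD (m' ω)) + 3 * (CB * nD (L (z ω) - m' ω)) +
            3 * (δ ^ 2 * nD (m' (s v ω))) := by
        intro ω
        have h2 : z ω - δ • (A v (m' ω) - m' (s v ω)) =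
            -(δ • A v (m' ω) - B v (m' ω)) + B v (L (z ω) - m' ω) + δ • m' (s v ω) := by
          rw [map_sub, hL2 (z ω) (hz ω), smul_sub]
          abel
        rw [h2]
        refine (dfa_add3 _ _ _).trans ?_
        rw [dfa_neg, dfa_smul]
        have h3 := hA.close v hvU (m' ω)
        have h4 := hCB (L (z ω) - m' ω)
        linarith
      refine (Finset.sum_le_sum fun ω _ => h1 ω).trans ?_
      rw [Finset.sum_add_distrib, Finset.sum_add_distrib, ← Finset.mul_sum, ← Finset.mul_sum,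
        ← Finset.mul_sum, ← Finset.mul_sum, ← Finset.mul_sum, ← Finset.mul_sum, hbij]
      have hm0 : 0 ≤ ∑ ω, nD (m' ω) := Finset.sum_nonneg fun ω _ => dfa_nonneg _
      have h5 : δ ^ 2 * ∑ ω, nD (m' ω) ≤ η ^ 2 * ∑ ω, nD (m' ω) :=
        mul_le_mul_of_nonneg_right hδ2 hm0
      have h6 : η ^ 2 * ∑ ω, nD (m' ω) ≤ η ^ 2 * (2 * (C + 1) * CL * ∑ ω, nD (z ω)) :=
        mul_le_mul_of_nonneg_left hmn' (sq_nonneg _)
      have h7 : CB * ∑ ω, nD (L (z ω) - m' ω) ≤ CB * (C * CL * η ^ 2 * ∑ ω, nD (z ω)) :=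
        mul_le_mul_of_nonneg_left hd hCB0
      calc _ ≤ 3 * (η ^ 2 * (2 * (C + 1) * CL * ∑ ω, nD (z ω))) +
            3 * (CB * (C * CL * η ^ 2 * ∑ ω, nD (z ω))) +
            3 * (η ^ 2 * (2 * (C + 1) * CL * ∑ ω, nD (z ω))) := by linarith
        _ = _ := by ring

/-- **Deformation of chains.** The constant does not depend on the finite set `Ω`. -/
theorem deform_chain {G : SimpleGraph V} {U : Finset V} {B : V → (D → ℝ) →ₗ[ℝ] (D → ℝ)}
    (hB : IsLim G U B) (i : ℕ) :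
    ∃ C : ℝ, 0 ≤ C ∧ ∀ (η δ : ℝ) (A : V → (D → ℝ) →ₗ[ℝ] (D → ℝ)), η ≤ 1 →
      IsClose G U B A η δ → ∀ (Ω : Type) [Fintype Ω] (s : V → Ω → Ω), IsAct G s →
        ∀ y : Finset V → Ω → D → ℝ, (∀ ω, IsF G B ⊤ U i fun σ => y σ ω) →
          ∃ y', IsF G (hat A s) ⊤ U i y' ∧ nO (y - y') ≤ C * η ^ 2 * nO y := by
  classical
  have hex : ∀ σ : Finset V, ∃ C : ℝ, 0 ≤ C ∧ (σ ⊆ U → Cl G σ →
      ∀ (η δ : ℝ) (A : V → (D → ℝ) →ₗ[ℝ] (D → ℝ)), η ≤ 1 →
      IsClose G U B A η δ → ∀ (Ω : Type) [Fintype Ω] (s : V → Ω → Ω), IsAct G s →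
        ∀ z : Ω → D → ℝ, (∀ ω, ∀ v ∈ σ, B v (z ω) = 0) →
          ∃ z' : Ω → D → ℝ, (∀ v ∈ σ, ∀ ω, z' (s v ω) = -A v (z' ω)) ∧
            ∑ ω, nD (z ω - z' ω) ≤ C * η ^ 2 * ∑ ω, nD (z ω)) := by
    intro σ
    by_cases hσ : σ ⊆ U ∧ Cl G σ
    · obtain ⟨C, h1, h2⟩ := dfa_simplex hB σ hσ.1 hσ.2
      exact ⟨C, h1, fun _ _ => h2⟩
    · exact ⟨0, le_rfl, fun h' h'' => absurd ⟨h', h''⟩ hσ⟩
  choose C hC0 hC using hex
  refine ⟨∑ σ, C σ, Finset.sum_nonneg fun σ _ => hC0 σ, ?_⟩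
  intro η δ A hη hA Ω _ s hs y hy
  have hex2 : ∀ σ : Finset V, ∃ z' : Ω → D → ℝ,
      ((¬ (σ ⊆ U ∧ Cl G σ ∧ σ.card = i)) → z' = 0) ∧
      (∀ v ∈ σ, ∀ ω, z' (s v ω) = -A v (z' ω)) ∧
      ∑ ω, nD (y σ ω - z' ω) ≤ C σ * η ^ 2 * ∑ ω, nD (y σ ω) := by
    intro σ
    by_cases hσ : σ ⊆ U ∧ Cl G σ ∧ σ.card = i
    · obtain ⟨z', h1, h2⟩ := hC σ hσ.1 hσ.2.1 η δ A hη hA Ω s hs (y σ)
        (fun ω v hv => (hy ω).ker σ v hv)
      exact ⟨z', fun h' => absurd hσ h', h1, h2⟩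
    · have hz0 : ∀ ω, y σ ω = 0 := by
        intro ω
        by_contra hne
        exact hσ ((hy ω).supp σ hne)
      refine ⟨0, fun _ => rfl, fun v _ ω => ?_, ?_⟩
      · show (0 : D → ℝ) = -A v 0
        rw [map_zero, neg_zero]
      · have h1 : ∑ ω, nD (y σ ω - (0 : Ω → D → ℝ) ω) = 0 :=
          Finset.sum_eq_zero fun ω _ => by simp [hz0 ω, nD]
        rw [h1]
        have := hC0 σ
        have h2 : 0 ≤ ∑ ω, nD (y σ ω) := Finset.sum_nonneg fun ω _ => dfa_nonneg _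
        positivity
  choose y' hy1 hy2 hy3 using hex2
  refine ⟨y', ⟨fun σ => Submodule.mem_top, ?_, ?_⟩, ?_⟩
  · intro σ v hv
    funext ω
    show y' σ (s v ω) + A v (y' σ ω) = 0
    rw [hy2 σ v hv ω, neg_add_cancel]
  · intro σ hne
    by_contra hcon
    exact hne (hy1 σ hcon)
  · have hS0 : 0 ≤ ∑ σ, C σ := Finset.sum_nonneg fun σ _ => hC0 σ
    unfold nO
    rw [Finset.mul_sum]
    refine Finset.sum_le_sum fun σ _ => ?_
    refine (hy3 σ).trans ?_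
    have hsum : C σ ≤ ∑ σ, C σ :=
      Finset.single_le_sum (fun τ _ => hC0 τ) (Finset.mem_univ σ)
    have h2 : 0 ≤ ∑ ω, nD (y σ ω) := Finset.sum_nonneg fun ω _ => dfa_nonneg _
    gcongr

end Pool.Agent.H69.Loc
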