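import Mathlib

/-!
# Project FOLD2: fermionic operators
-/

set_option autoImplicit false

open Matrix

namespace Pool.Agent.H69.Loc

/-- Cast to real matrices. -/
private def toR {D E : Type} (M : Matrix D E ℤ) : Matrix D E ℝ := M.map (Int.cast : ℤ → ℝ)

private structure FockData (n : ℕ) where
  D : Type
  fin : Fintype D
  dec : DecidableEq D
  vac : D
  a : Fin n → Matrix D D ℤ
  aa : ∀ i j, a i * a j + a j * a i = 0
  ab : ∀ i j, a i * (a j)ᵀ + (a j)ᵀ * a i = if i = j then 1 else 0
  avac : ∀ i d, a i d vac = 0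
  uniq : ∀ (V : Type) [Fintype V] [DecidableEq V] (X : Matrix V D ℝ) (c : Fin n → Matrix V V ℝ),
    (∀ i, X * toR (a i)ᵀ = c i * X) → (∀ v, X v vac = 0) → X = 0
  ex : ∀ (V : Type) [Fintype V] [DecidableEq V] (z y : Fin n → Matrix V V ℝ) (f : V → ℝ),
    (∀ i j, z i * z j + z j * z i = 0) → (∀ i j, y i * y j + y j * y i = 0) →
    (∀ i j, z i * y j + y j * z i = if i = j then 1 else 0) → (∀ i, z i *ᵥ f = 0) →
    ∃ L : Matrix V D ℝ, (∀ i, L * toR (a i)ᵀ = y i * L) ∧ (∀ i, L * toR (a i) = z i * L) ∧
      ∀ v, L v vac = f v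

private noncomputable def fockZero : FockData 0 where
  D := Unit
  fin := inferInstance
  dec := inferInstance
  vac := ()
  a := fun i => i.elim0
  aa := fun i => i.elim0
  ab := fun i => i.elim0
  avac := fun i => i.elim0
  uniq := by
    intro V _ _ X c _ h
    ext v d
    cases d
    exact h v
  ex := by
    intro V _ _ z y f _ _ _ _
    exact ⟨Matrix.of fun v _ => f v, fun i => i.elim0, fun i => i.elim0, fun v => rfl⟩

private theorem toR_fromBlocks {D : Type} (A B C E : Matrix D D ℤ) :
    toR (fromBlocks A B C E) = fromBlocks (toR A) (toR B) (toR C) (toR E) := by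
  simp [toR, fromBlocks_map]

private theorem exists_fockSucc (n : ℕ) (F : FockData n) : Nonempty (FockData (n + 1)) := by
  obtain ⟨D, fin, dec, vac, a, aa, ab, avac, uniq, ex⟩ := F
  have h1 : toR (1 : Matrix D D ℤ) = 1 := by simp [toR]
  have h0 : toR (0 : Matrix D D ℤ) = 0 := by simp [toR]
  have hneg : ∀ M : Matrix D D ℤ, toR (-M) = - toR M := by
    intro M; ext i j; simp [toR]
  let a' : Fin (n + 1) → Matrix (D ⊕ D) (D ⊕ D) ℤ :=
    Fin.cons (fromBlocks 0 1 0 0) (fun i => fromBlocks (a i) 0 0 (-(a i)))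
  have a'0 : a' 0 = fromBlocks 0 1 0 0 := rfl
  have a's : ∀ i : Fin n, a' i.succ = fromBlocks (a i) 0 0 (-(a i)) := fun i => rfl
  have ra0 : toR (a' 0) = fromBlocks 0 1 0 0 := by rw [a'0, toR_fromBlocks, h1, h0]
  have ra0t : toR (a' 0)ᵀ = fromBlocks 0 0 1 0 := by
    rw [a'0, fromBlocks_transpose, toR_fromBlocks, transpose_zero, transpose_one, h1, h0]
  have ras : ∀ i : Fin n, toR (a' i.succ) = fromBlocks (toR (a i)) 0 0 (-toR (a i)) := by
    intro i; rw [a's, toR_fromBlocks, hneg, h0]
  have rast : ∀ i : Fin n, toR (a' i.succ)ᵀ = fromBlocks (toR (a i)ᵀ) 0 0 (-toR (a i)ᵀ) := by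
    intro i
    rw [a's, fromBlocks_transpose, toR_fromBlocks, transpose_zero, transpose_neg, hneg, h0]
  refine ⟨⟨D ⊕ D, inferInstance, inferInstance, Sum.inl vac, a', ?_, ?_, ?_, ?_, ?_⟩⟩
  · intro i j
    refine Fin.cases ?_ (fun i => ?_) i <;> refine Fin.cases ?_ (fun j => ?_) j
    · simp [a'0, fromBlocks_multiply]
    · simp [a'0, a's, fromBlocks_multiply, fromBlocks_add]
    · simp [a'0, a's, fromBlocks_multiply, fromBlocks_add]
    · simp [a's, fromBlocks_multiply, fromBlocks_add, aa i j]
  · intro i j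
    refine Fin.cases ?_ (fun i => ?_) i <;> refine Fin.cases ?_ (fun j => ?_) j
    · simp [a'0, fromBlocks_transpose, fromBlocks_multiply, fromBlocks_add]
    · have : (0 : Fin (n + 1)) ≠ j.succ := (Fin.succ_ne_zero j).symm
      simp [a'0, a's, fromBlocks_transpose, fromBlocks_multiply, fromBlocks_add, this]
    · have : i.succ ≠ (0 : Fin (n + 1)) := Fin.succ_ne_zero i
      simp [a'0, a's, fromBlocks_transpose, fromBlocks_multiply, fromBlocks_add, this]
    · have := ab i j
      rw [a's, a's, fromBlocks_transpose, fromBlocks_multiply, fromBlocks_multiply,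
        fromBlocks_add]
      simp only [transpose_zero, transpose_neg, mul_zero, zero_mul, add_zero, zero_add,
        neg_mul_neg, this, Fin.succ_inj]
      split_ifs
      · exact fromBlocks_one
      · exact fromBlocks_zero
  · intro i d
    refine Fin.cases ?_ (fun i => ?_) i
    · rcases d with d | d <;> simp [a'0]
    · rcases d with d | d
      · simp [a's, avac]
      · simp [a's]
  · intro V _ _ X c hX hv
    have key : ∀ i, X * toR (a' i)ᵀ = c i * X := hX
    obtain ⟨X1, X2, rfl⟩ : ∃ X1 X2 : Matrix V D ℝ, X = fromCols X1 X2 :=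
      ⟨X.toCols₁, X.toCols₂, (fromCols_toCols X).symm⟩
    have k0 := key 0
    rw [ra0t, fromCols_mul_fromBlocks, mul_fromCols, fromCols_ext_iff] at k0
    have hX1 : X1 = 0 := by
      apply uniq V X1 (fun i => c i.succ)
      · intro i
        have k := key i.succ
        rw [rast, fromCols_mul_fromBlocks, mul_fromCols, fromCols_ext_iff] at k
        have := k.1
        simpa using this
      · intro v
        simpa using hv v
    have hX2 : X2 = 0 := by
      have := k0.1
      simpa [hX1] using this
    rw [hX1, hX2, fromCols_zero]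
  · intro V _ _ z y f hzz hyy hzy hf
    obtain ⟨L, hb, ha, hvac⟩ := ex V (fun i => z i.succ) (fun i => y i.succ) f
      (fun i j => hzz _ _) (fun i j => hyy _ _)
      (fun i j => by
        have := hzy i.succ j.succ
        simpa only [Fin.succ_inj] using this) (fun i => hf _)
    have hz0 : z 0 * L = 0 := by
      apply uniq V (z 0 * L) (fun i => - y i.succ)
      · intro i
        have h := hzy 0 i.succ
        rw [if_neg (Fin.succ_ne_zero i).symm] at h
        have h' : z 0 * y i.succ = - (y i.succ * z 0) := eq_neg_of_add_eq_zero_left h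
        rw [Matrix.mul_assoc, hb i, ← Matrix.mul_assoc, h', Matrix.neg_mul, Matrix.neg_mul,
          Matrix.mul_assoc]
      · intro v
        have := congrFun (hf 0) v
        simp only [mulVec, dotProduct, Pi.zero_apply] at this
        rw [mul_apply]
        simpa only [hvac] using this
    have hz0y0 : z 0 * (y 0 * L) = L := by
      have h := hzy 0 0
      rw [if_pos rfl] at h
      have : (z 0 * y 0 + y 0 * z 0) * L = L := by rw [h, Matrix.one_mul]
      rw [Matrix.add_mul, Matrix.mul_assoc, Matrix.mul_assoc, hz0, Matrix.mul_zero, add_zero] at this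
      exact this
    have hy00 : y 0 * (y 0 * L) = 0 := by
      have h := hyy 0 0
      have h2 : y 0 * y 0 = 0 := by
        have : (2 : ℝ) • (y 0 * y 0) = 0 := by rw [two_smul]; exact h
        rcases smul_eq_zero.mp this with h3 | h3
        · norm_num at h3
        · exact h3
      rw [← Matrix.mul_assoc, h2, Matrix.zero_mul]
    refine ⟨fromCols L (y 0 * L), ?_, ?_, ?_⟩
    · intro i
      refine Fin.cases ?_ (fun i => ?_) i
      · rw [ra0t, fromCols_mul_fromBlocks, mul_fromCols, fromCols_ext_iff]
        constructor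
        · simp
        · simp [hy00]
      · rw [rast, fromCols_mul_fromBlocks, mul_fromCols, fromCols_ext_iff]
        constructor
        · simp [hb i]
        · have h := hyy 0 i.succ
          have h' : y 0 * y i.succ = - (y i.succ * y 0) := eq_neg_of_add_eq_zero_left h
          simp only [Matrix.mul_zero, zero_add, Matrix.mul_neg]
          rw [Matrix.mul_assoc, hb i, ← Matrix.mul_assoc, h', Matrix.neg_mul, neg_neg,
            Matrix.mul_assoc]
    · intro i
      refine Fin.cases ?_ (fun i => ?_) i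
      · rw [ra0, fromCols_mul_fromBlocks, mul_fromCols, fromCols_ext_iff]
        constructor
        · simp [hz0]
        · simp [hz0y0]
      · rw [ras, fromCols_mul_fromBlocks, mul_fromCols, fromCols_ext_iff]
        constructor
        · simp [ha i]
        · have h := hzy i.succ 0
          rw [if_neg (Fin.succ_ne_zero i)] at h
          have h' : y 0 * z i.succ = - (z i.succ * y 0) := eq_neg_of_add_eq_zero_right h
          simp only [Matrix.mul_zero, zero_add, Matrix.mul_neg]
          rw [Matrix.mul_assoc, ha i, ← Matrix.mul_assoc, h', Matrix.neg_mul, neg_neg,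
            Matrix.mul_assoc]
    · intro v
      simpa using hvac v

private theorem nonempty_fock (n : ℕ) : Nonempty (FockData n) := by
  induction n with
  | zero => exact ⟨fockZero⟩
  | succ n ih => exact exists_fockSucc n ih.some

private theorem anti_sum {J D : Type} [Fintype J] [Fintype D] (p q : J → ℝ)
    (P Q : J → Matrix D D ℝ) :
    (∑ k, p k • P k) * (∑ l, q l • Q l) + (∑ l, q l • Q l) * (∑ k, p k • P k) =
      ∑ k, ∑ l, (p k * q l) • (P k * Q l + Q l * P k) := by
  have h1 : (∑ k, p k • P k) * (∑ l, q l • Q l) = ∑ k, ∑ l, (p k * q l) • (P k * Q l) := by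
    rw [Finset.sum_mul]
    refine Finset.sum_congr rfl fun k _ => ?_
    rw [Finset.mul_sum]
    refine Finset.sum_congr rfl fun l _ => ?_
    rw [smul_mul_assoc, mul_smul_comm, smul_smul]
  have h2 : (∑ l, q l • Q l) * (∑ k, p k • P k) = ∑ k, ∑ l, (p k * q l) • (Q l * P k) := by
    rw [Finset.mul_sum]
    refine Finset.sum_congr rfl fun k _ => ?_
    rw [Finset.sum_mul]
    refine Finset.sum_congr rfl fun l _ => ?_
    rw [smul_mul_assoc, mul_smul_comm, smul_smul, mul_comm]
  rw [h1, h2, ← Finset.sum_add_distrib]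
  refine Finset.sum_congr rfl fun k _ => ?_
  rw [← Finset.sum_add_distrib]
  refine Finset.sum_congr rfl fun l _ => ?_
  rw [smul_add]

/-- **Fock space.** Integer matrices `a j` with the canonical anticommutation relations, and the
real matrices induced by a linear change of coordinates. -/
theorem exists_fock (J : Type) [Fintype J] [DecidableEq J] :
    ∃ (D : Type) (_ : Fintype D) (_ : DecidableEq D) (_ : Nonempty D) (a : J → Matrix D D ℤ),
      (∀ i j, a i * a j + a j * a i = 0) ∧
      (∀ i j, a i * (a j)ᵀ + (a j)ᵀ * a i = if i = j then 1 else 0) ∧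
      ∀ Y Z : Matrix J J ℝ, Y * Z = 1 → ∃ L : Matrix D D ℝ, IsUnit L ∧
        (∀ i, L * (a i)ᵀ.map (Int.cast : ℤ → ℝ) =
          (∑ j, Y i j • (a j)ᵀ.map (Int.cast : ℤ → ℝ)) * L) ∧
        ∀ i, L * (a i).map (Int.cast : ℤ → ℝ) =
          (∑ j, Z j i • (a j).map (Int.cast : ℤ → ℝ)) * L := by
  obtain ⟨D, fin, dec, vac, a, aa, ab, avac, uniq, ex⟩ := (nonempty_fock (Fintype.card J)).some
  let e : J ≃ Fin (Fintype.card J) := Fintype.equivFin J
  have AB : ∀ i j : J, toR (a (e i)) * toR (a (e j))ᵀ + toR (a (e j))ᵀ * toR (a (e i)) =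
      if i = j then 1 else 0 := by
    intro i j
    have h := congrArg toR (ab (e i) (e j))
    have : toR (a (e i) * (a (e j))ᵀ + (a (e j))ᵀ * a (e i)) =
        toR (a (e i)) * toR (a (e j))ᵀ + toR (a (e j))ᵀ * toR (a (e i)) := by
      simp only [toR]
      rw [Matrix.map_add _ (by intros; push_cast; rfl)]
      have hm : ∀ M N : Matrix D D ℤ, (M * N).map (Int.cast : ℤ → ℝ) =
          M.map (Int.cast : ℤ → ℝ) * N.map (Int.cast : ℤ → ℝ) := by
        intro M N
        exact Matrix.map_mul (f := Int.castRingHom ℝ)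
      rw [hm, hm]
    rw [← this, h]
    simp only [EmbeddingLike.apply_eq_iff_eq]
    split_ifs <;> simp [toR]
  have AA : ∀ i j : J, toR (a (e i)) * toR (a (e j)) + toR (a (e j)) * toR (a (e i)) = 0 := by
    intro i j
    have h := congrArg toR (aa (e i) (e j))
    have : toR (a (e i) * (a (e j)) + (a (e j)) * a (e i)) =
        toR (a (e i)) * toR (a (e j)) + toR (a (e j)) * toR (a (e i)) := by
      simp only [toR]
      rw [Matrix.map_add _ (by intros; push_cast; rfl)]
      have hm : ∀ M N : Matrix D D ℤ, (M * N).map (Int.cast : ℤ → ℝ) =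
          M.map (Int.cast : ℤ → ℝ) * N.map (Int.cast : ℤ → ℝ) := by
        intro M N
        exact Matrix.map_mul (f := Int.castRingHom ℝ)
      rw [hm, hm]
    rw [← this, h]
    simp [toR]
  have BB : ∀ i j : J, toR (a (e i))ᵀ * toR (a (e j))ᵀ + toR (a (e j))ᵀ * toR (a (e i))ᵀ = 0 := by
    intro i j
    have h := congrArg Matrix.transpose (AA j i)
    rw [transpose_add, transpose_mul, transpose_mul, transpose_zero] at h
    exact h
  have hav : ∀ i : J, toR (a (e i)) *ᵥ (Pi.single vac (1 : ℝ)) = 0 := by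
    intro i
    ext d
    simp [toR, avac]
  have main : ∀ Y Z : Matrix J J ℝ, Y * Z = 1 → ∃ L : Matrix D D ℝ,
      (∀ i, L * toR (a (e i))ᵀ = (∑ j, Y i j • toR (a (e j))ᵀ) * L) ∧
      (∀ i, L * toR (a (e i)) = (∑ j, Z j i • toR (a (e j))) * L) ∧
      ∀ v, L v vac = (Pi.single vac (1 : ℝ) : D → ℝ) v := by
    intro Y Z hYZ
    have c1 : ∀ i j : Fin (Fintype.card J), (∑ l, Z l (e.symm i) • toR (a (e l))) *
        (∑ l, Z l (e.symm j) • toR (a (e l))) + (∑ l, Z l (e.symm j) • toR (a (e l))) *
        (∑ l, Z l (e.symm i) • toR (a (e l))) = 0 := by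
      intro i j
      rw [anti_sum (fun l => Z l (e.symm i)) (fun l => Z l (e.symm j))
        (fun l => toR (a (e l))) (fun l => toR (a (e l)))]
      refine Finset.sum_eq_zero fun k _ => Finset.sum_eq_zero fun l _ => ?_
      rw [AA, smul_zero]
    have c2 : ∀ i j : Fin (Fintype.card J), (∑ l, Y (e.symm i) l • toR (a (e l))ᵀ) *
        (∑ l, Y (e.symm j) l • toR (a (e l))ᵀ) + (∑ l, Y (e.symm j) l • toR (a (e l))ᵀ) *
        (∑ l, Y (e.symm i) l • toR (a (e l))ᵀ) = 0 := by
      intro i j
      rw [anti_sum (fun l => Y (e.symm i) l) (fun l => Y (e.symm j) l)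
        (fun l => toR (a (e l))ᵀ) (fun l => toR (a (e l))ᵀ)]
      refine Finset.sum_eq_zero fun k _ => Finset.sum_eq_zero fun l _ => ?_
      rw [BB, smul_zero]
    have c3 : ∀ i j : Fin (Fintype.card J), (∑ l, Z l (e.symm i) • toR (a (e l))) *
        (∑ l, Y (e.symm j) l • toR (a (e l))ᵀ) + (∑ l, Y (e.symm j) l • toR (a (e l))ᵀ) *
        (∑ l, Z l (e.symm i) • toR (a (e l))) = if i = j then 1 else 0 := by
      intro i j
      rw [anti_sum (fun l => Z l (e.symm i)) (fun l => Y (e.symm j) l)
        (fun l => toR (a (e l))) (fun l => toR (a (e l))ᵀ)]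
      have : ∀ k ∈ Finset.univ, (∑ l, (Z k (e.symm i) * Y (e.symm j) l) •
          (toR (a (e k)) * toR (a (e l))ᵀ + toR (a (e l))ᵀ * toR (a (e k)))) =
          (Y (e.symm j) k * Z k (e.symm i)) • (1 : Matrix D D ℝ) := by
        intro k _
        rw [Finset.sum_eq_single k]
        · rw [AB, if_pos rfl, mul_comm]
        · intro l _ hl
          rw [AB, if_neg (Ne.symm hl), smul_zero]
        · intro h; exact absurd (Finset.mem_univ k) h
      rw [Finset.sum_congr rfl this, ← Finset.sum_smul, ← mul_apply, hYZ, one_apply]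
      simp only [EmbeddingLike.apply_eq_iff_eq]
      by_cases hij : i = j
      · simp [hij]
      · rw [if_neg hij, if_neg (Ne.symm hij), zero_smul]
    have c4 : ∀ i : Fin (Fintype.card J), (∑ l, Z l (e.symm i) • toR (a (e l))) *ᵥ
        (Pi.single vac (1 : ℝ)) = 0 := by
      intro i
      rw [sum_mulVec]
      refine Finset.sum_eq_zero fun j _ => ?_
      rw [smul_mulVec, hav, smul_zero]
    obtain ⟨L, hb, ha, hv⟩ := ex D (fun i => ∑ j, Z j (e.symm i) • toR (a (e j)))
      (fun i => ∑ j, Y (e.symm i) j • toR (a (e j))ᵀ) (Pi.single vac 1) c1 c2 c3 c4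
    refine ⟨L, fun i => ?_, fun i => ?_, hv⟩
    · have := hb (e i)
      simpa only [Equiv.symm_apply_apply] using this
    · have := ha (e i)
      simpa only [Equiv.symm_apply_apply] using this
  refine ⟨D, fin, dec, ⟨vac⟩, fun i => a (e i), fun i j => aa _ _, fun i j => ?_, ?_⟩
  · rw [ab]
    simp only [EmbeddingLike.apply_eq_iff_eq]
  · intro Y Z hYZ
    have hZY : Z * Y = 1 := mul_eq_one_comm.mp hYZ
    obtain ⟨L, hb, ha, hv⟩ := main Y Z hYZ
    obtain ⟨M, hb', ha', hv'⟩ := main Z Y hZY
    refine ⟨L, ?_, hb, ha⟩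
    have hLM : L * M - 1 = 0 := by
      apply uniq D (L * M - 1) (fun i => toR (a i)ᵀ)
      · intro i
        have hb1 := hb' (e.symm i)
        rw [Equiv.apply_symm_apply] at hb1
        rw [sub_mul, mul_sub, one_mul, mul_one, Matrix.mul_assoc, hb1, ← Matrix.mul_assoc,
          Finset.mul_sum]
        congr 1
        have : ∀ j ∈ Finset.univ, L * (Z (e.symm i) j • toR (a (e j))ᵀ) =
            (∑ k, (Z (e.symm i) j * Y j k) • toR (a (e k))ᵀ) * L := by
          intro j _
          rw [mul_smul_comm, hb j, ← smul_mul_assoc, Finset.smul_sum]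
          simp only [smul_smul]
        rw [Finset.sum_congr rfl this, ← Finset.sum_mul, Finset.sum_comm]
        have h2 : ∀ k ∈ Finset.univ, (∑ j, (Z (e.symm i) j * Y j k) • toR (a (e k))ᵀ) =
            ((1 : Matrix J J ℝ) (e.symm i) k) • toR (a (e k))ᵀ := by
          intro k _
          rw [← Finset.sum_smul, ← hZY, mul_apply]
        rw [Finset.sum_congr rfl h2, Finset.sum_eq_single (e.symm i)]
        · rw [one_apply_eq, one_smul, Equiv.apply_symm_apply, Matrix.mul_assoc]
        · intro k _ hk
          rw [one_apply_ne (Ne.symm hk), zero_smul]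
        · intro h; exact absurd (Finset.mem_univ _) h
      · intro v
        rw [Matrix.sub_apply, mul_apply]
        simp only [hv']
        simp [hv, one_apply, Pi.single_apply]
    have hLM' : L * M = 1 := sub_eq_zero.mp hLM
    exact (Matrix.isUnit_iff_isUnit_det L).mpr (isUnit_det_of_right_inverse hLM')

end Pool.Agent.H69.Loc
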