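import Pool.Agent.H69.Loc.LocDefs
import Pool.Agent.H85.Fold.LinkS

/-!
# Project FOLD2: folding matrices of polygons
-/

set_option autoImplicit false

open Finset

namespace Pool.Agent.H69.Loc

open Pool.Agent.H85.Fold

variable {V : Type} [DecidableEq V] [Fintype V]

omit [Fintype V] in
private theorem poly_cl_pair {G : SimpleGraph V} {a b : V} (h : G.Adj a b) : Cl G {a, b} := by
  intro u hu w hw huw
  rw [Finset.mem_insert, Finset.mem_singleton] at hu hw
  rcases hu with rfl | rfl <;> rcases hw with rfl | rfl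
  · exact absurd rfl huw
  · exact h
  · exact h.symm
  · exact absurd rfl huw

omit [DecidableEq V] [Fintype V] in
private theorem poly_cl_single {G : SimpleGraph V} (a : V) : Cl G {a} := by
  intro u hu w hw huw
  rw [Finset.mem_singleton] at hu hw
  exact absurd (hu.trans hw.symm) huw

omit [DecidableEq V] [Fintype V] in
private theorem poly_cl_empty {G : SimpleGraph V} : Cl G ∅ := by
  intro u hu
  exact absurd hu (Finset.notMem_empty u)

omit [DecidableEq V] [Fintype V] in
private theorem poly_sgn_single (ν : V → ℕ) (v : V) : sgn ν v {v} = 1 := by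
  unfold sgn
  have : (({v} : Finset V).filter fun u => ν u < ν v) = ∅ := by
    rw [Finset.filter_eq_empty_iff]
    intro x hx
    rw [Finset.mem_singleton] at hx
    rw [hx]
    exact lt_irrefl _
  rw [this]
  simp

omit [DecidableEq V] [Fintype V] in
private theorem poly_mem_fac {G : SimpleGraph V} {n : ℕ} {U σ : Finset V} :
    σ ∈ fac G n U ↔ σ ⊆ U ∧ Cl G σ ∧ σ.card = n := by
  unfold fac
  simp only [Finset.mem_filter, Finset.mem_powerset]

/-- a sphere of dimension `0` has exactly two vertices -/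
private theorem poly_two {ν : V → ℕ} {G : SimpleGraph V} {W : Finset V} {o : Finset V → ℝ}
    (hK : IsSphere ν G 1 W o) : W.card = 2 := by
  obtain ⟨τ, hτW, hτc, hτn, -⟩ := hK.pure ∅ (Finset.empty_subset _) poly_cl_empty
  obtain ⟨a, rfl⟩ := Finset.card_eq_one.mp hτn
  have haW : a ∈ W := hτW (Finset.mem_singleton_self a)
  obtain ⟨b, hbW, hba, -, -⟩ := hK.exists_ne (σ := ∅) (v := a) (Finset.notMem_empty a)
    (by rw [insert_empty_eq]; exact hτW) (by rw [insert_empty_eq]; exact hτc)
  have hsub : ({a, b} : Finset V) ⊆ W := by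
    intro x hx
    rw [Finset.mem_insert, Finset.mem_singleton] at hx
    rcases hx with rfl | rfl
    · exact haW
    · exact hbW
  have hcard : ({a, b} : Finset V).card = 2 := Finset.card_pair hba.symm
  by_contra hne
  have h2 : 2 < W.card := by
    have := Finset.card_le_card hsub
    omega
  obtain ⟨c, hcW, hc⟩ : ∃ c ∈ W, c ∉ ({a, b} : Finset V) := by
    by_contra hcon
    push Not at hcon
    have := Finset.card_le_card (show W ⊆ {a, b} from hcon)
    omega
  rw [Finset.mem_insert, Finset.mem_singleton, not_or] at hc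
  have hoa : o {a} ≠ 0 := hK.ne {a} hτW hτc hτn
  have hob : o {b} ≠ 0 := hK.ne {b} (Finset.singleton_subset_iff.mpr hbW) (poly_cl_single b)
    (Finset.card_singleton b)
  let ψ : Finset V → ℝ := fun σ =>
    if σ = {a} then (o {a})⁻¹ else if σ = {b} then -(o {b})⁻¹ else 0
  have hab' : ({b} : Finset V) ≠ {a} := fun h => hba (Finset.singleton_injective h)
  obtain ⟨χ, hχ⟩ := hK.top ∅ (Finset.empty_subset _) poly_cl_empty ψ (by
    have hfa : ({a} : Finset V) ∈ fac G 1 W := poly_mem_fac.mpr ⟨hτW, hτc, hτn⟩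
    have hfb : ({b} : Finset V) ∈ fac G 1 W := poly_mem_fac.mpr
      ⟨Finset.singleton_subset_iff.mpr hbW, poly_cl_single b, Finset.card_singleton b⟩
    rw [← Finset.add_sum_erase _ _ hfa,
      ← Finset.add_sum_erase _ _ (Finset.mem_erase.mpr ⟨hab', hfb⟩), Finset.sum_eq_zero]
    · simp only [Finset.empty_subset, if_true, ψ, if_neg hab', add_zero]
      rw [mul_inv_cancel₀ hoa, mul_neg, mul_inv_cancel₀ hob]
      ring
    · intro σ hσ
      rw [Finset.mem_erase, Finset.mem_erase] at hσ
      simp only [Finset.empty_subset, if_true, ψ, if_neg hσ.1, if_neg hσ.2.1, mul_zero])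
  have key : ∀ v ∈ W, ψ {v} = χ ∅ := by
    intro v hv
    rw [hχ {v} (Finset.singleton_subset_iff.mpr hv) (poly_cl_single v) (Finset.empty_subset _)
      (Finset.card_singleton v), Finset.sdiff_empty, Finset.sum_singleton, poly_sgn_single,
      one_mul]
    congr 1
    rw [Finset.erase_eq_empty_iff]
    exact Or.inr rfl
  have h1 := key a haW
  have h3 := key c hcW
  have hca : ({c} : Finset V) ≠ {a} := fun h => hc.1 (Finset.singleton_injective h)
  have hcb : ({c} : Finset V) ≠ {b} := fun h => hc.2 (Finset.singleton_injective h)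
  simp only [ψ, if_true] at h1
  simp only [ψ, if_neg hca, if_neg hcb] at h3
  rw [← h3] at h1
  exact inv_ne_zero hoa h1

/-- a set of vertices which is closed under neighbours is everything -/
private theorem poly_conn {ν : V → ℕ} (hν : Function.Injective ν) {G : SimpleGraph V}
    {U : Finset V} {o : Finset V → ℝ} (hK : IsSphere ν G 2 U o) {A : Finset V} {a : V}
    (haU : a ∈ U) (haA : a ∈ A) (hcl : ∀ u ∈ A, ∀ v ∈ U, G.Adj u v → v ∈ A) :
    ∀ v ∈ U, v ∈ A := by
  let ψ : Finset V → ℝ := fun σ => if σ ⊆ A then 1 else 0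
  obtain ⟨χ, hχ⟩ := hK.exact ∅ (Finset.empty_subset _) poly_cl_empty 1 (by norm_num) ψ (by
    intro σ hσU hσc _ hσn
    obtain ⟨x, y, hxy, rfl⟩ := Finset.card_eq_two.mp hσn
    have hx : x ∈ U := hσU (Finset.mem_insert_self _ _)
    have hy : y ∈ U := hσU (Finset.mem_insert_of_mem (Finset.mem_singleton_self _))
    have hadj : G.Adj x y := hσc x (Finset.mem_insert_self _ _) y
      (Finset.mem_insert_of_mem (Finset.mem_singleton_self _)) hxy
    have e1 : ({x, y} : Finset V).erase x = {y} := by
      rw [Finset.erase_insert]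
      rw [Finset.mem_singleton]
      exact hxy
    have e2 : ({x, y} : Finset V).erase y = {x} := by
      rw [Finset.pair_comm, Finset.erase_insert]
      rw [Finset.mem_singleton]
      exact hxy.symm
    rw [Finset.sdiff_empty, Finset.sum_pair hxy, e1, e2]
    have h1 : ψ {x} = ψ {y} := by
      simp only [ψ, Finset.singleton_subset_iff]
      by_cases hxA : x ∈ A
      · rw [if_pos hxA, if_pos (hcl x hxA y hy hadj)]
      · rw [if_neg hxA, if_neg fun h => hxA (hcl y h x hx hadj.symm)]
    rw [h1, ← add_mul]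
    have h2 : sgn ν x {x, y} + sgn ν y {x, y} = 0 := by
      unfold sgn
      rw [Finset.filter_insert, Finset.filter_singleton, Finset.filter_insert,
        Finset.filter_singleton, if_neg (lt_irrefl (ν x)), if_neg (lt_irrefl (ν y))]
      rcases lt_or_gt_of_ne (fun h => hxy (hν h) : ν x ≠ ν y) with h | h
      · rw [if_pos h, if_neg h.not_gt]
        simp
      · rw [if_pos h, if_neg h.not_gt]
        simp
    rw [h2, zero_mul])
  have key : ∀ v ∈ U, ψ {v} = χ ∅ := by
    intro v hv
    rw [hχ {v} (Finset.singleton_subset_iff.mpr hv) (poly_cl_single v) (Finset.empty_subset _)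
      (Finset.card_singleton v), Finset.sdiff_empty, Finset.sum_singleton, poly_sgn_single,
      one_mul]
    congr 1
    rw [Finset.erase_eq_empty_iff]
    exact Or.inr rfl
  intro v hv
  have h1 := (key v hv).trans (key a haU).symm
  simp only [ψ, Finset.singleton_subset_iff, if_pos haA] at h1
  by_contra hvA
  rw [if_neg hvA] at h1
  exact zero_ne_one h1

omit [Fintype V] [DecidableEq V] in
private theorem poly_third {s : Finset V} (hs : s.card = 2) {a b c : V} (ha : a ∈ s) (hb : b ∈ s)
    (hab : a ≠ b) (hc : c ∈ s) : c = a ∨ c = b := by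
  classical
  obtain ⟨x, y, hxy, rfl⟩ := Finset.card_eq_two.mp hs
  rw [Finset.mem_insert, Finset.mem_singleton] at ha hb hc
  rcases ha with rfl | rfl <;> rcases hb with rfl | rfl
  · exact absurd rfl hab
  · exact hc
  · exact hc.symm
  · exact absurd rfl hab

/-- a sphere of dimension `-1` is empty -/
theorem hasFold_zero {ν : V → ℕ} {G : SimpleGraph V} {U : Finset V} {o : Finset V → ℝ}
    (hK : IsSphere ν G 0 U o) : HasFold G 0 U := by
  have hU : ∀ u, u ∉ U := by
    intro u hu
    have := hK.dim {u} (Finset.singleton_subset_iff.mpr hu) (poly_cl_single u)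
    rw [Finset.card_singleton] at this
    omega
  refine ⟨fun _ _ => 0, ⟨fun _ _ => rfl, fun _ _ _ _ _ => rfl, fun u hu => absurd hu (hU u),
    ⟨fun i => Fin.elim0 i, fun x hx hne _ => absurd (funext fun v => hx v (hU v)) hne⟩⟩⟩

/-- a sphere of dimension `1` is a polygon with at least four vertices -/
theorem exists_polygon {ν : V → ℕ} (hν : Function.Injective ν) {G : SimpleGraph V}
    {U : Finset V} {o : Finset V → ℝ} (hK : IsSphere ν G 2 U o) :
    ∃ (N : ℕ) (f : V → ℕ), 4 ≤ N ∧ (∀ u ∈ U, f u < N) ∧ Set.InjOn f U ∧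
      ∀ u ∈ U, ∀ v ∈ U, G.Adj u v ↔
        f v = f u + 1 ∨ f u = f v + 1 ∨ (f u = 0 ∧ f v + 1 = N) ∨ (f v = 0 ∧ f u + 1 = N) := by
  classical
  -- every vertex has exactly two neighbours
  have h2 : ∀ u ∈ U, (nbr G u U).card = 2 := fun u hu => poly_two (hK.link hν hu)
  -- the other neighbour
  have hoth : ∀ u x : V, ∃ y, u ∈ U → x ∈ nbr G u U → y ∈ nbr G u U ∧ y ≠ x := by
    intro u x
    by_cases h : u ∈ U ∧ x ∈ nbr G u U
    · obtain ⟨hu, hx⟩ := h
      have h3 : ((nbr G u U).erase x).card = 1 := by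
        rw [Finset.card_erase_of_mem hx, h2 u hu]
      obtain ⟨y, hy⟩ := Finset.card_eq_one.mp h3
      have hy' : y ∈ (nbr G u U).erase x := by rw [hy]; exact Finset.mem_singleton_self y
      rw [Finset.mem_erase] at hy'
      exact ⟨y, fun _ _ => ⟨hy'.2, hy'.1⟩⟩
    · exact ⟨u, fun hu hx => absurd ⟨hu, hx⟩ h⟩
  choose oth hoth using hoth
  -- a first edge
  obtain ⟨τ, hτU, hτc, hτn, -⟩ := hK.pure ∅ (Finset.empty_subset _) poly_cl_empty
  obtain ⟨v0, v1, h01, rfl⟩ := Finset.card_eq_two.mp hτn
  have hv0 : v0 ∈ U := hτU (Finset.mem_insert_self _ _)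
  have hv1 : v1 ∈ U := hτU (Finset.mem_insert_of_mem (Finset.mem_singleton_self _))
  have hadj01 : G.Adj v0 v1 := hτc v0 (Finset.mem_insert_self _ _) v1
    (Finset.mem_insert_of_mem (Finset.mem_singleton_self _)) h01
  -- the walk
  let s : ℕ → V × V := fun i => Nat.rec (v0, v1) (fun _ p => (p.2, oth p.2 p.1)) i
  let v : ℕ → V := fun i => (s i).1
  have hs1 : ∀ i, s (i + 1) = ((s i).2, oth (s i).2 (s i).1) := fun i => rfl
  have hv1' : ∀ i, (s i).2 = v (i + 1) := fun i => rfl
  have hvo : ∀ i, v (i + 2) = oth (v (i + 1)) (v i) := fun i => rfl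
  have hP : ∀ i, v i ∈ U ∧ v (i + 1) ∈ U ∧ G.Adj (v i) (v (i + 1)) := by
    intro i
    induction i with
    | zero => exact ⟨hv0, hv1, hadj01⟩
    | succ i ih =>
      obtain ⟨g1, g2, g3⟩ := ih
      have g4 : v i ∈ nbr G (v (i + 1)) U := mem_nbr.mpr ⟨g1, g3.symm⟩
      obtain ⟨g5, -⟩ := hoth (v (i + 1)) (v i) g2 g4
      rw [← hvo] at g5
      obtain ⟨g6, g7⟩ := mem_nbr.mp g5
      exact ⟨g2, g6, g7⟩
  have hvU : ∀ i, v i ∈ U := fun i => (hP i).1
  have hvadj : ∀ i, G.Adj (v i) (v (i + 1)) := fun i => (hP i).2.2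
  have hv2 : ∀ i, v (i + 2) ≠ v i := by
    intro i
    have g4 : v i ∈ nbr G (v (i + 1)) U := mem_nbr.mpr ⟨hvU i, (hvadj i).symm⟩
    obtain ⟨-, g5⟩ := hoth (v (i + 1)) (v i) (hvU (i + 1)) g4
    rw [← hvo] at g5
    exact g5
  -- first return
  have hex : ∃ N, ∃ j, j < N ∧ v j = v N := by
    obtain ⟨i, j, hij, he⟩ := Finite.exists_ne_map_eq_of_infinite v
    rcases lt_or_gt_of_ne hij with h | h
    · exact ⟨j, i, h, he⟩
    · exact ⟨i, j, h, he.symm⟩
  obtain ⟨N, ⟨j, hjN, hjv⟩, hmin⟩ : ∃ N, (∃ j, j < N ∧ v j = v N) ∧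
      ∀ M, M < N → ¬ ∃ j, j < M ∧ v j = v M :=
    ⟨Nat.find hex, Nat.find_spec hex, fun M hM => Nat.find_min hex hM⟩
  have hinj : ∀ a b, a < N → b < N → v a = v b → a = b := by
    intro a b ha hb hab
    by_contra hne
    rcases lt_or_gt_of_ne hne with h | h
    · exact hmin b hb ⟨a, h, hab⟩
    · exact hmin a ha ⟨b, h, hab.symm⟩
  -- neighbours of `v (i + 1)`
  have hnb : ∀ i x, x ∈ U → G.Adj (v (i + 1)) x → x = v i ∨ x = v (i + 2) := by
    intro i x hx hadj
    exact poly_third (h2 _ (hvU (i + 1))) (mem_nbr.mpr ⟨hvU i, (hvadj i).symm⟩)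
      (mem_nbr.mpr ⟨hvU (i + 2), hvadj (i + 1)⟩) (hv2 i).symm (mem_nbr.mpr ⟨hx, hadj⟩)
  have hN2 : j + 2 < N := by
    have g1 : j + 1 ≠ N := by
      intro h
      have := hvadj j
      rw [h, ← hjv] at this
      exact G.loopless.irrefl _ this
    have g2 : j + 2 ≠ N := by
      intro h
      have := hv2 j
      rw [h] at this
      exact this hjv.symm
    omega
  have hj0 : j = 0 := by
    by_contra hj
    obtain ⟨i, rfl⟩ := Nat.exists_eq_succ_of_ne_zero hj
    obtain ⟨M, rfl⟩ : ∃ M, N = M + 1 := ⟨N - 1, by omega⟩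
    have hadj : G.Adj (v (i + 1)) (v M) := by
      have := (hvadj M).symm
      rw [← hjv] at this
      exact this
    rcases hnb i (v M) (hvU M) hadj with h | h
    · have := hinj M i (by omega) (by omega) h
      omega
    · have := hinj M (i + 2) (by omega) (by omega) h
      omega
  subst hj0
  have hN3 : 3 ≤ N := by omega
  obtain ⟨M, rfl⟩ : ∃ M, N = M + 1 := ⟨N - 1, by omega⟩
  have hM0 : G.Adj (v M) (v 0) := by
    have := hvadj M
    rw [← hjv] at this
    exact this
  -- neighbours of `v 0`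
  have hnb0 : ∀ x, x ∈ U → G.Adj (v 0) x → x = v M ∨ x = v 1 := by
    intro x hx hadj
    refine poly_third (h2 _ (hvU 0)) (mem_nbr.mpr ⟨hvU M, hM0.symm⟩)
      (mem_nbr.mpr ⟨hvU 1, hvadj 0⟩) ?_ (mem_nbr.mpr ⟨hx, hadj⟩)
    intro h
    have := hinj M 1 (by omega) (by omega) h
    omega
  -- all vertices are visited
  have hall : ∀ u ∈ U, ∃ i, i < M + 1 ∧ v i = u := by
    have hcl := poly_conn hν hK (A := (Finset.range (M + 1)).image v) (a := v 0) (hvU 0)
      (Finset.mem_image.mpr ⟨0, Finset.mem_range.mpr (by omega), rfl⟩) (by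
        intro u hu w hw hadj
        obtain ⟨i, hi, rfl⟩ := Finset.mem_image.mp hu
        rw [Finset.mem_range] at hi
        rcases Nat.eq_zero_or_pos i with h0 | h0
        · subst h0
          rcases hnb0 w hw hadj with rfl | rfl
          · exact Finset.mem_image.mpr ⟨M, Finset.mem_range.mpr (by omega), rfl⟩
          · exact Finset.mem_image.mpr ⟨1, Finset.mem_range.mpr (by omega), rfl⟩
        · obtain ⟨k, rfl⟩ : ∃ k, i = k + 1 := ⟨i - 1, by omega⟩
          rcases hnb k w hw hadj with rfl | rfl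
          · exact Finset.mem_image.mpr ⟨k, Finset.mem_range.mpr (by omega), rfl⟩
          · by_cases hk : k + 2 = M + 1
            · rw [hk, ← hjv]
              exact Finset.mem_image.mpr ⟨0, Finset.mem_range.mpr (by omega), rfl⟩
            · exact Finset.mem_image.mpr ⟨k + 2, Finset.mem_range.mpr (by omega), rfl⟩)
    intro u hu
    obtain ⟨i, hi, h⟩ := Finset.mem_image.mp (hcl u hu)
    exact ⟨i, Finset.mem_range.mp hi, h⟩
  choose! f hf using hall
  have hfN : ∀ u ∈ U, f u < M + 1 := fun u hu => (hf u hu).1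
  have hfv : ∀ u ∈ U, v (f u) = u := fun u hu => (hf u hu).2
  have hN4 : 4 ≤ M + 1 := by
    by_contra hlt
    have hM2 : M = 2 := by omega
    subst hM2
    have hd01 : v 0 ≠ v 1 := fun h => by have := hinj 0 1 (by omega) (by omega) h; omega
    have hd02 : v 0 ≠ v 2 := fun h => by have := hinj 0 2 (by omega) (by omega) h; omega
    have hd12 : v 1 ≠ v 2 := fun h => by have := hinj 1 2 (by omega) (by omega) h; omega
    have hc : Cl G ({v 0, v 1, v 2} : Finset V) := by
      intro x hx y hy hxy
      simp only [Finset.mem_insert, Finset.mem_singleton] at hx hy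
      rcases hx with rfl | rfl | rfl <;> rcases hy with rfl | rfl | rfl
      · exact absurd rfl hxy
      · exact hvadj 0
      · exact hM0.symm
      · exact (hvadj 0).symm
      · exact absurd rfl hxy
      · exact hvadj 1
      · exact hM0
      · exact (hvadj 1).symm
      · exact absurd rfl hxy
    have hsub : ({v 0, v 1, v 2} : Finset V) ⊆ U := by
      intro x hx
      simp only [Finset.mem_insert, Finset.mem_singleton] at hx
      rcases hx with h | h | h
      · rw [h]
        exact hvU 0
      · rw [h]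
        exact hvU 1
      · rw [h]
        exact hvU 2
    have := hK.dim _ hsub hc
    rw [Finset.card_eq_three.mpr ⟨v 0, v 1, v 2, hd01, hd02, hd12, rfl⟩] at this
    omega
  refine ⟨M + 1, f, hN4, hfN, ?_, ?_⟩
  · intro a ha b hb hab
    rw [Finset.mem_coe] at ha hb
    have := congrArg v hab
    rwa [hfv a ha, hfv b hb] at this
  · intro a ha b hb
    constructor
    · intro hadj
      have hadj' : G.Adj (v (f a)) b := by rw [hfv a ha]; exact hadj
      have hb' := hfv b hb
      have hbN := hfN b hb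
      have haN := hfN a ha
      rcases Nat.eq_zero_or_pos (f a) with h0 | h0
      · rw [h0] at hadj'
        rcases hnb0 b hb hadj' with h | h
        · have := hinj (f b) M hbN (by omega) (hb'.trans h)
          omega
        · have := hinj (f b) 1 hbN (by omega) (hb'.trans h)
          omega
      · obtain ⟨k, hk⟩ : ∃ k, f a = k + 1 := ⟨f a - 1, by omega⟩
        rw [hk] at hadj'
        rcases hnb k b hb hadj' with h | h
        · have := hinj (f b) k hbN (by omega) (hb'.trans h)
          omega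
        · by_cases hkM : k + 2 = M + 1
          · rw [hkM, ← hjv] at h
            have := hinj (f b) 0 hbN (by omega) (hb'.trans h)
            omega
          · have := hinj (f b) (k + 2) hbN (by omega) (hb'.trans h)
            omega
    · intro h
      have ha' := hfv a ha
      have hb' := hfv b hb
      rcases h with h | h | ⟨h, h'⟩ | ⟨h, h'⟩
      · rw [← ha', ← hb', h]
        exact hvadj _
      · rw [← ha', ← hb', h]
        exact (hvadj _).symm
      · have hbM : f b = M := by omega
        rw [← ha', ← hb', h, hbM]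
        exact hM0.symm
      · have haM : f a = M := by omega
        rw [← ha', ← hb', h, haM]
        exact hM0

private theorem poly_cos {N d : ℕ} (hN : 4 ≤ N) (h2 : 2 ≤ d) (hd : d + 2 ≤ N) :
    Real.cos (d * (2 * Real.pi / N)) < Real.cos (2 * Real.pi / N) := by
  have hNpos : (0 : ℝ) < N := by
    have : 0 < N := by omega
    exact_mod_cast this
  have hpi := Real.pi_pos
  have hφ : 0 < 2 * Real.pi / N := by positivity
  have aux : ∀ m : ℕ, 2 ≤ m → 2 * m ≤ N →
      Real.cos (m * (2 * Real.pi / N)) < Real.cos (2 * Real.pi / N) := by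
    intro m hm hmN
    have h1 : (2 : ℝ) ≤ m := by exact_mod_cast hm
    have h3 : (2 : ℝ) * m ≤ N := by exact_mod_cast hmN
    refine Real.strictAntiOn_cos ⟨hφ.le, ?_⟩ ⟨by positivity, ?_⟩ ?_
    · rw [div_le_iff₀ hNpos]
      nlinarith
    · have : (m : ℝ) * (2 * Real.pi / N) = Real.pi * (2 * m / N) := by ring
      rw [this]
      have h4 : 2 * (m : ℝ) / N ≤ 1 := by
        rw [div_le_one hNpos]
        exact h3
      nlinarith
    · nlinarith
  by_cases h : 2 * d ≤ N
  · exact aux d h2 h
  · have h5 := aux (N - d) (by omega) (by omega)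
    have h6 : ((N - d : ℕ) : ℝ) = N - d := by
      rw [Nat.cast_sub (by omega)]
    rw [h6] at h5
    have h7 : ((N : ℝ) - d) * (2 * Real.pi / N) = 2 * Real.pi - d * (2 * Real.pi / N) := by
      field_simp
    rw [h7, Real.cos_two_pi_sub] at h5
    exact h5

private theorem poly_cos_one {N : ℕ} (hN : 4 ≤ N) :
    Real.cos ((N - 1 : ℝ) * (2 * Real.pi / N)) = Real.cos (2 * Real.pi / N) := by
  have hNpos : (0 : ℝ) < N := by
    have : 0 < N := by omega
    exact_mod_cast this
  have h7 : ((N : ℝ) - 1) * (2 * Real.pi / N) = 2 * Real.pi - (2 * Real.pi / N) := by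
    field_simp
  rw [h7, Real.cos_two_pi_sub]

/-- polygons have folding matrices: `cos ((f u - f v) φ) - cos φ` for `u ≠ v`, `φ = 2 π / N` -/
theorem hasFold_of_polygon {G : SimpleGraph V} {U : Finset V} {N : ℕ} {f : V → ℕ} (hN : 4 ≤ N)
    (hf : ∀ u ∈ U, f u < N) (hinj : Set.InjOn f U)
    (hadj : ∀ u ∈ U, ∀ v ∈ U, G.Adj u v ↔
      f v = f u + 1 ∨ f u = f v + 1 ∨ (f u = 0 ∧ f v + 1 = N) ∨ (f v = 0 ∧ f u + 1 = N)) :
    HasFold G 2 U := by
  classical
  have hNpos : (0 : ℝ) < N := by
    have : 0 < N := by omega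
    exact_mod_cast this
  have hN4 : (4 : ℝ) ≤ N := by exact_mod_cast hN
  have hpi := Real.pi_pos
  set φ : ℝ := 2 * Real.pi / N with hφdef
  have hφ : 0 < φ := by positivity
  have hφ2 : φ ≤ Real.pi / 2 := by
    rw [hφdef, div_le_iff₀ hNpos]
    nlinarith
  have hc0 : 0 ≤ Real.cos φ := Real.cos_nonneg_of_neg_pi_div_two_le_of_le (by linarith) hφ2
  have hc1 : Real.cos φ < 1 := by
    have := Real.strictAntiOn_cos (a := 0) (b := φ) ⟨le_refl _, hpi.le⟩ ⟨hφ.le, by linarith⟩ hφ
    rwa [Real.cos_zero] at this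
  let T : V → V → ℝ := fun u v =>
    if u = v then 0 else Real.cos (((f u : ℝ) - f v) * φ) - Real.cos φ
  have hTne : ∀ u v, u ≠ v → T u v = Real.cos (((f u : ℝ) - f v) * φ) - Real.cos φ :=
    fun u v h => if_neg h
  have hTeq : ∀ u, T u u = 0 := fun u => if_pos rfl
  have hTsymm : ∀ u v, T u v = T v u := by
    intro u v
    by_cases h : u = v
    · rw [h]
    · rw [hTne u v h, hTne v u (Ne.symm h)]
      have : ((f u : ℝ) - f v) * φ = -(((f v : ℝ) - f u) * φ) := by ring
      rw [this, Real.cos_neg]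
  refine ⟨T, hTsymm, ?_, ?_, ?_⟩
  · intro u hu v hv h
    by_cases huv : u = v
    · rw [huv]
      exact hTeq v
    · have hadj' := h.resolve_left huv
      rw [hTne u v huv, sub_eq_zero]
      rcases (hadj u hu v hv).mp hadj' with h1 | h1 | ⟨h1, h1'⟩ | ⟨h1, h1'⟩
      · have : ((f u : ℝ) - f v) * φ = -φ := by
          rw [h1]
          push_cast
          ring
        rw [this, Real.cos_neg]
      · have : ((f u : ℝ) - f v) * φ = φ := by
          rw [h1]
          push_cast
          ring
        rw [this]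
      · have : ((f u : ℝ) - f v) * φ = -(((N : ℝ) - 1) * φ) := by
          rw [h1, ← h1']
          push_cast
          ring
        rw [this, Real.cos_neg]
        exact poly_cos_one hN
      · have : ((f u : ℝ) - f v) * φ = ((N : ℝ) - 1) * φ := by
          rw [h1, ← h1']
          push_cast
          ring
        rw [this]
        exact poly_cos_one hN
  · have aux : ∀ u ∈ U, ∀ v ∈ U, ¬ G.Adj u v → f v < f u → T u v < 0 := by
      intro u hu v hv hna hlt
      have hne : u ≠ v := fun h => by rw [h] at hlt; exact lt_irrefl _ hlt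
      have h1 := fun h => hna ((hadj u hu v hv).mpr h)
      have h2 := hf u hu
      have h3 : 2 ≤ f u - f v := by
        by_contra h4
        exact h1 (Or.inr (Or.inl (by omega)))
      have h4 : f u - f v + 2 ≤ N := by
        by_contra h5
        exact h1 (Or.inr (Or.inr (Or.inr ⟨by omega, by omega⟩)))
      have h5 := poly_cos hN h3 h4
      rw [Nat.cast_sub hlt.le] at h5
      rw [hTne u v hne]
      linarith
    intro u hu v hv huv hna
    have hfne : f u ≠ f v := fun h => huv (hinj hu hv h)
    rcases lt_or_gt_of_ne hfne with h | h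
    · rw [hTsymm]
      exact aux v hv u hu (fun h' => hna h'.symm) h
    · exact aux u hu v hv hna h
  · refine ⟨fun i v => if i = 0 then Real.cos (f v * φ) else Real.sin (f v * φ), ?_⟩
    intro x _ hx0 hq
    have hq0 : ∑ v, Real.cos (f v * φ) * x v = 0 := by simpa using hq 0
    have hq1 : ∑ v, Real.sin (f v * φ) * x v = 0 := by simpa using hq 1
    have h1 : ∀ u v, x u * x v * T u v =
        (Real.cos (f u * φ) * x u) * (Real.cos (f v * φ) * x v) +
        (Real.sin (f u * φ) * x u) * (Real.sin (f v * φ) * x v) -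
        Real.cos φ * (x u * x v) - (if u = v then (1 - Real.cos φ) * x u ^ 2 else 0) := by
      intro u v
      by_cases h : u = v
      · subst h
        rw [hTeq, if_pos rfl]
        have := Real.cos_sq_add_sin_sq (f u * φ)
        linear_combination (- x u ^ 2) * this
      · rw [hTne u v h, if_neg h, sub_mul, Real.cos_sub]
        ring
    have h2 : ∑ u, ∑ v, x u * x v * T u v =
        -(Real.cos φ * (∑ v, x v) ^ 2) - (1 - Real.cos φ) * ∑ v, x v ^ 2 := by
      simp_rw [h1, Finset.sum_sub_distrib, Finset.sum_add_distrib]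
      simp_rw [← Finset.mul_sum, hq0, hq1]
      simp only [mul_zero, Finset.sum_const_zero, Finset.sum_ite_eq, Finset.mem_univ, if_true]
      rw [← Finset.sum_mul, ← Finset.mul_sum]
      ring
    rw [h2]
    have h3 : 0 < ∑ v, x v ^ 2 := by
      obtain ⟨v, hv⟩ := Function.ne_iff.mp hx0
      refine Finset.sum_pos' (fun i _ => sq_nonneg _) ⟨v, Finset.mem_univ v, ?_⟩
      exact lt_of_le_of_ne (sq_nonneg _) (Ne.symm (pow_ne_zero 2 hv))
    have h4 : 0 ≤ Real.cos φ * (∑ v, x v) ^ 2 := mul_nonneg hc0 (sq_nonneg _)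
    have h5 : 0 < (1 - Real.cos φ) * ∑ v, x v ^ 2 := mul_pos (by linarith) h3
    linarith

/-- spheres of dimension `1` have folding matrices -/
theorem hasFold_two {ν : V → ℕ} (hν : Function.Injective ν) {G : SimpleGraph V}
    {U : Finset V} {o : Finset V → ℝ} (hK : IsSphere ν G 2 U o) : HasFold G 2 U := by
  obtain ⟨N, f, hN, hf, hinj, hadj⟩ := exists_polygon hν hK
  exact hasFold_of_polygon hN hf hinj hadj

end Pool.Agent.H69.Loc
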