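import Mathlib

/-!
# Project FOLD2: perturbation of definite forms
-/

set_option autoImplicit false

namespace Pool.Agent.H69.Loc

/-- the inner product space structure of a positive definite form -/
private noncomputable abbrev ipCore {E : Type} [AddCommGroup E] [Module ℝ E]
    (ip : E →ₗ[ℝ] E →ₗ[ℝ] ℝ) (hsymm : ∀ x y, ip x y = ip y x) (hpos : ∀ x, x ≠ 0 → 0 < ip x x) :
    InnerProductSpace.Core ℝ E where
  inner x y := ip x y
  conj_inner_symm x y := by simp [hsymm x y]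
  re_inner_nonneg x := by
    by_cases hx : x = 0
    · simp [hx]
    · simpa using (hpos x hx).le
  add_left x y z := by simp
  smul_left x y r := by simp
  definite x hx := by
    by_contra hne
    exact (hpos x hne).ne' hx

private theorem upper_inner {E : Type} [NormedAddCommGroup E] [InnerProductSpace ℝ E]
    [FiniteDimensional ℝ E] (q : E →ₗ[ℝ] E →ₗ[ℝ] ℝ) :
    ∃ C : ℝ, 0 ≤ C ∧ ∀ x y, |q x y| ≤ C * ‖x‖ * ‖y‖ := by
  let Q : E →L[ℝ] (E →L[ℝ] ℝ) :=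
    LinearMap.toContinuousLinearMap
      ((LinearMap.toContinuousLinearMap (E := E) (F' := ℝ) (𝕜 := ℝ)).toLinearMap ∘ₗ q)
  refine ⟨‖Q‖, ContinuousLinearMap.opNorm_nonneg _, fun x y => ?_⟩
  have h := Q.le_opNorm₂ x y
  simpa [Q, Real.norm_eq_abs] using h

/-- bilinear forms are bounded -/
theorem exists_upper {E : Type} [AddCommGroup E] [Module ℝ E] [FiniteDimensional ℝ E]
    (ip : E →ₗ[ℝ] E →ₗ[ℝ] ℝ) (hsymm : ∀ x y, ip x y = ip y x) (hpos : ∀ x, x ≠ 0 → 0 < ip x x)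
    (q : E →ₗ[ℝ] E →ₗ[ℝ] ℝ) :
    ∃ C : ℝ, 0 ≤ C ∧ ∀ x y, q x y ^ 2 ≤ C ^ 2 * (ip x x * ip y y) := by
  let _ : NormedAddCommGroup E := (ipCore ip hsymm hpos).toNormedAddCommGroup
  let _ : InnerProductSpace ℝ E := InnerProductSpace.ofCore (ipCore ip hsymm hpos).toCore
  have hn : ∀ x : E, ‖x‖ ^ 2 = ip x x := fun x => (real_inner_self_eq_norm_sq x).symm
  obtain ⟨C, hC, h⟩ := upper_inner q
  refine ⟨C, hC, fun x y => ?_⟩
  rw [← hn, ← hn]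
  have h1 := h x y
  have h2 : |q x y| ^ 2 ≤ (C * ‖x‖ * ‖y‖) ^ 2 := pow_le_pow_left₀ (abs_nonneg _) h1 2
  rw [sq_abs] at h2
  calc q x y ^ 2 ≤ (C * ‖x‖ * ‖y‖) ^ 2 := h2
    _ = C ^ 2 * (‖x‖ ^ 2 * ‖y‖ ^ 2) := by ring

/-- a semidefinite form on a finite-dimensional space controls the distance from a space which
contains its zeros -/
theorem exists_lower {E : Type} [AddCommGroup E] [Module ℝ E] [FiniteDimensional ℝ E]
    (ip : E →ₗ[ℝ] E →ₗ[ℝ] ℝ) (hsymm : ∀ x y, ip x y = ip y x) (hpos : ∀ x, x ≠ 0 → 0 < ip x x)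
    (Z B : Submodule ℝ E) (q : E →ₗ[ℝ] E →ₗ[ℝ] ℝ)
    (h : ∀ z ∈ Z, 0 ≤ q z z ∧ (q z z = 0 → z ∈ B)) :
    ∃ c₀ : ℝ, 0 < c₀ ∧ ∀ z ∈ Z, ∃ b ∈ B, c₀ * ip (z - b) (z - b) ≤ q z z := by
  -- Cauchy-Schwarz: zeros are in the kernel of the symmetrized form
  have key : ∀ z ∈ Z, q z z = 0 → ∀ w ∈ Z, q z w + q w z = 0 := by
    intro z hz hz0 w hw
    by_contra hne
    -- q (t z + w) (t z + w) = t (q z w + q w z) + q w w
    have hq : ∀ t : ℝ, 0 ≤ t * (q z w + q w z) + q w w := by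
      intro t
      have h1 := (h (t • z + w) (Z.add_mem (Z.smul_mem t hz) hw)).1
      have h2 : q (t • z + w) (t • z + w) = t * (q z w + q w z) + q w w := by
        simp only [map_add, map_smul, LinearMap.add_apply, LinearMap.smul_apply, smul_eq_mul, hz0]
        ring
      rwa [h2] at h1
    have h3 := hq (-(q w w + 1) / (q z w + q w z))
    rw [div_mul_cancel₀ _ hne] at h3
    linarith
  let N : Submodule ℝ E :=
    { carrier := {z | z ∈ Z ∧ q z z = 0}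
      add_mem' := by
        rintro a b ⟨ha, ha0⟩ ⟨hb, hb0⟩
        refine ⟨Z.add_mem ha hb, ?_⟩
        have h1 := key a ha ha0 b hb
        simp only [map_add, LinearMap.add_apply, ha0, hb0]
        linarith
      zero_mem' := by
        refine ⟨Z.zero_mem, ?_⟩
        simp
      smul_mem' := by
        rintro c a ⟨ha, ha0⟩
        refine ⟨Z.smul_mem c ha, ?_⟩
        simp [ha0] }
  obtain ⟨N', hN'⟩ := Submodule.exists_isCompl N
  let C : Submodule ℝ E := N' ⊓ Z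
  let qs : C →ₗ[ℝ] C →ₗ[ℝ] ℝ := (q + q.flip).domRestrict₁₂ C C
  let ipC : C →ₗ[ℝ] C →ₗ[ℝ] ℝ := ip.domRestrict₁₂ C C
  have hqs : ∀ x y : C, qs x y = q x y + q y x := fun x y => rfl
  have hipC : ∀ x y : C, ipC x y = ip x y := fun x y => rfl
  have hqspos : ∀ x : C, x ≠ 0 → 0 < qs x x := by
    intro x hx
    rw [hqs]
    have hxZ : (x : E) ∈ Z := (Submodule.mem_inf.1 x.2).2
    have hxN' : (x : E) ∈ N' := (Submodule.mem_inf.1 x.2).1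
    have h1 := (h x hxZ).1
    rcases h1.lt_or_eq with h2 | h2
    · linarith
    · exfalso
      apply hx
      have hxN : (x : E) ∈ N := ⟨hxZ, h2.symm⟩
      have h3 := (Submodule.disjoint_def.1 hN'.disjoint) x hxN hxN'
      exact Subtype.ext h3
  obtain ⟨K, hK, hKb⟩ := exists_upper qs (fun x y => by rw [hqs, hqs]; ring) hqspos ipC
  refine ⟨1 / (2 * (K + 1)), by positivity, fun z hz => ?_⟩
  have htop : z ∈ N ⊔ N' := by rw [hN'.sup_eq_top]; trivial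
  obtain ⟨b, hb, c, hc, hbc⟩ := Submodule.mem_sup.1 htop
  have hbZ : b ∈ Z := hb.1
  have hcZ : c ∈ Z := by
    have : c = z - b := by rw [← hbc]; abel
    rw [this]
    exact Z.sub_mem hz hbZ
  refine ⟨b, (h b hbZ).2 hb.2, ?_⟩
  have hzb : z - b = c := by rw [← hbc]; abel
  rw [hzb]
  have hqz : q z z = q c c := by
    rw [← hbc]
    have h1 := key b hbZ hb.2 c hcZ
    simp only [map_add, LinearMap.add_apply, hb.2]
    linarith
  rw [hqz]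
  let c' : C := ⟨c, Submodule.mem_inf.2 ⟨hc, hcZ⟩⟩
  have h1 := hKb c' c'
  rw [hqs, hipC] at h1
  have hcc : (c' : E) = c := rfl
  rw [hcc] at h1
  have hq0 : 0 ≤ q c c := (h c hcZ).1
  have hi0 : 0 ≤ ip c c := by
    by_cases hc0 : c = 0
    · simp [hc0]
    · exact (hpos c hc0).le
  have h2 : ip c c ^ 2 ≤ (K * (q c c + q c c)) ^ 2 := by
    calc ip c c ^ 2 ≤ K ^ 2 * ((q c c + q c c) * (q c c + q c c)) := h1
      _ = (K * (q c c + q c c)) ^ 2 := by ring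
  have h3 : ip c c ≤ K * (q c c + q c c) := by
    have h4 : 0 ≤ K * (q c c + q c c) := by positivity
    exact (abs_le.1 (abs_le_of_sq_le_sq h2 h4)).2
  rw [div_mul_eq_mul_div, one_mul, div_le_iff₀ (by positivity)]
  nlinarith

private theorem abs_pert_inner {c₀ C : ℝ} (hc₀ : 0 < c₀) (hC : 0 ≤ C) :
    ∃ η₀ : ℝ, 0 < η₀ ∧ ∀ (E : Type) [NormedAddCommGroup E] [InnerProductSpace ℝ E]
      [FiniteDimensional ℝ E],
      ∀ q : E →ₗ[ℝ] E →ₗ[ℝ] ℝ, (∀ x y, |q x y| ≤ C * (‖x‖ * ‖y‖)) →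
      ∀ Z₀ B₀ Z₁ B₁ : Submodule ℝ E, B₁ ≤ Z₁ →
      (∀ z ∈ Z₀, ∃ b ∈ B₀, c₀ * ‖z - b‖ ^ 2 ≤ q z z) →
      ∀ η : ℝ, 0 ≤ η → η ≤ η₀ →
      (∀ z ∈ Z₁, ∃ z' ∈ Z₀, ‖z - z'‖ ≤ η * ‖z‖) →
      (∀ b ∈ B₀, ∃ b' ∈ B₁, ‖b - b'‖ ≤ η * ‖b‖) →
      (∀ z ∈ Z₁, ∀ b ∈ B₁, q (z + b) (z + b) = q z z) →
      ∀ z ∈ Z₁, 0 ≤ q z z ∧ (q z z = 0 → z ∈ B₁) := by
  set S : ℝ := Real.sqrt (C / c₀) with hS
  have hS0 : 0 ≤ S := Real.sqrt_nonneg _
  have hS2 : c₀ * S ^ 2 = C := by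
    rw [hS, Real.sq_sqrt (by positivity)]
    field_simp
  set K : ℝ := 2 + 2 * S with hK
  have hK0 : 0 < K := by positivity
  refine ⟨min 1 (min (1 / (2 * (1 + K))) (c₀ / (24 * (C + 1)))), by positivity, ?_⟩
  intro E _ _ _ q hq Z₀ B₀ Z₁ B₁ hBZ hlow η hη hη₀ hz hb hinv z hzZ
  have hη1 : η ≤ 1 := hη₀.trans (min_le_left _ _)
  have hη2 : η ≤ 1 / (2 * (1 + K)) := hη₀.trans ((min_le_right _ _).trans (min_le_left _ _))
  have hη3 : η ≤ c₀ / (24 * (C + 1)) := hη₀.trans ((min_le_right _ _).trans (min_le_right _ _))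
  have hη2' : η * (1 + K) ≤ 1 / 2 := by
    rw [le_div_iff₀ (by positivity)] at hη2
    linarith
  have hη3' : 3 * C * η ≤ c₀ / 8 := by
    rw [le_div_iff₀ (by positivity)] at hη3
    nlinarith
  -- the orthogonal projection
  let p : E := B₁.starProjection z
  have hp : p ∈ B₁ := B₁.starProjection_apply_mem z
  have hperp : ∀ b ∈ B₁, inner ℝ (z - p) b = 0 := by
    intro b hbB
    exact Submodule.starProjection_inner_eq_zero z b hbB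
  set w : E := z - p with hw
  have hwZ : w ∈ Z₁ := Z₁.sub_mem hzZ (hBZ hp)
  have hqw : q w w = q z z := by
    have := hinv z hzZ (-p) (B₁.neg_mem hp)
    rw [← sub_eq_add_neg] at this
    exact this
  have hdist : ∀ b ∈ B₁, ‖w‖ ≤ ‖w - b‖ := by
    intro b hbB
    have h1 : ‖w - b‖ ^ 2 = ‖w‖ ^ 2 + ‖b‖ ^ 2 := by
      rw [norm_sub_sq_real, hperp b hbB]
      ring
    have h2 : ‖w‖ ^ 2 ≤ ‖w - b‖ ^ 2 := by rw [h1]; nlinarith [sq_nonneg ‖b‖]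
    exact abs_le_of_sq_le_sq' h2 (norm_nonneg _) |>.2
  obtain ⟨z', hz'Z, hz'⟩ := hz w hwZ
  obtain ⟨b, hbB, hbl⟩ := hlow z' hz'Z
  obtain ⟨b', hb'B, hb'⟩ := hb b hbB
  set a : ℝ := ‖w‖ with ha
  have ha0 : 0 ≤ a := norm_nonneg _
  have hz'n : ‖z'‖ ≤ 2 * a := by
    have h1 : ‖z'‖ ≤ ‖w‖ + ‖w - z'‖ := by
      calc ‖z'‖ = ‖w - (w - z')‖ := by congr 1; abel
        _ ≤ ‖w‖ + ‖w - z'‖ := norm_sub_le _ _
    nlinarith
  have hqz' : q z' z' ≤ C * (2 * a) ^ 2 := by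
    have h1 := (le_abs_self _).trans (hq z' z')
    have h2 : ‖z'‖ * ‖z'‖ ≤ (2 * a) ^ 2 := by nlinarith [norm_nonneg z']
    exact h1.trans (mul_le_mul_of_nonneg_left h2 hC)
  have hzb : ‖z' - b‖ ≤ 2 * S * a := by
    have h1 : c₀ * ‖z' - b‖ ^ 2 ≤ c₀ * (2 * S * a) ^ 2 := by
      calc c₀ * ‖z' - b‖ ^ 2 ≤ C * (2 * a) ^ 2 := hbl.trans hqz'
        _ = c₀ * (2 * S * a) ^ 2 := by rw [← hS2]; ring
    have h2 : ‖z' - b‖ ^ 2 ≤ (2 * S * a) ^ 2 := le_of_mul_le_mul_left h1 hc₀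
    exact abs_le_of_sq_le_sq' h2 (by positivity) |>.2
  have hbn : ‖b‖ ≤ K * a := by
    have h1 : ‖b‖ ≤ ‖z'‖ + ‖z' - b‖ := by
      calc ‖b‖ = ‖z' - (z' - b)‖ := by congr 1; abel
        _ ≤ ‖z'‖ + ‖z' - b‖ := norm_sub_le _ _
    rw [hK]
    nlinarith
  have hbb' : ‖b - b'‖ ≤ η * (K * a) := hb'.trans (mul_le_mul_of_nonneg_left hbn hη)
  have hlow2 : a / 2 ≤ ‖z' - b‖ := by
    have h1 := hdist b' hb'B
    have h2 : ‖w - b'‖ ≤ ‖w - z'‖ + ‖z' - b‖ + ‖b - b'‖ := by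
      calc ‖w - b'‖ = ‖(w - z') + (z' - b) + (b - b')‖ := by congr 1; abel
        _ ≤ ‖(w - z') + (z' - b)‖ + ‖b - b'‖ := norm_add_le _ _
        _ ≤ ‖w - z'‖ + ‖z' - b‖ + ‖b - b'‖ := by
          have := norm_add_le (w - z') (z' - b)
          linarith
    have h3 : η * (1 + K) * a ≤ 1 / 2 * a := mul_le_mul_of_nonneg_right hη2' ha0
    nlinarith
  have hq1 : c₀ * a ^ 2 / 4 ≤ q z' z' := by
    have h1 : (a / 2) ^ 2 ≤ ‖z' - b‖ ^ 2 := pow_le_pow_left₀ (by positivity) hlow2 2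
    have h2 := mul_le_mul_of_nonneg_left h1 hc₀.le
    nlinarith
  have hdiff : |q w w - q z' z'| ≤ c₀ / 8 * a ^ 2 := by
    have h1 : q w w - q z' z' = q (w - z') w + q z' (w - z') := by
      simp only [map_sub, LinearMap.sub_apply]
      ring
    have h2 : |q (w - z') w| ≤ C * (η * a * a) := by
      refine (hq _ _).trans (mul_le_mul_of_nonneg_left ?_ hC)
      exact mul_le_mul_of_nonneg_right hz' ha0
    have h3 : |q z' (w - z')| ≤ C * (2 * a * (η * a)) := by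
      refine (hq _ _).trans (mul_le_mul_of_nonneg_left ?_ hC)
      exact mul_le_mul hz'n hz' (norm_nonneg _) (by positivity)
    rw [h1]
    calc |q (w - z') w + q z' (w - z')| ≤ |q (w - z') w| + |q z' (w - z')| := abs_add_le _ _
      _ ≤ C * (η * a * a) + C * (2 * a * (η * a)) := add_le_add h2 h3
      _ = (3 * C * η) * a ^ 2 := by ring
      _ ≤ c₀ / 8 * a ^ 2 := mul_le_mul_of_nonneg_right hη3' (sq_nonneg _)
  have hfin : c₀ / 8 * a ^ 2 ≤ q z z := by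
    rw [← hqw]
    have h1 := (abs_le.1 hdiff).1
    linarith
  refine ⟨le_trans (by positivity) hfin, fun h0 => ?_⟩
  rw [h0] at hfin
  have ha3 : a = 0 := by
    by_contra hcon
    have h1 : 0 < a ^ 2 := by positivity
    have : 0 < c₀ / 8 * a ^ 2 := mul_pos (by positivity) h1
    linarith
  have hw0 : w = 0 := norm_eq_zero.1 ha3
  have hzp : z = p := sub_eq_zero.1 hw0
  rw [hzp]
  exact hp

/-- **Perturbation of definite forms**, uniform in the space. -/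
theorem abs_pert {c₀ C : ℝ} (hc₀ : 0 < c₀) (hC : 0 ≤ C) :
    ∃ η₀ : ℝ, 0 < η₀ ∧ ∀ (E : Type) [AddCommGroup E] [Module ℝ E] [FiniteDimensional ℝ E]
      (ip : E →ₗ[ℝ] E →ₗ[ℝ] ℝ), (∀ x y, ip x y = ip y x) → (∀ x, x ≠ 0 → 0 < ip x x) →
      ∀ q : E →ₗ[ℝ] E →ₗ[ℝ] ℝ, (∀ x y, q x y ^ 2 ≤ C ^ 2 * (ip x x * ip y y)) →
      ∀ Z₀ B₀ Z₁ B₁ : Submodule ℝ E, B₁ ≤ Z₁ →
      (∀ z ∈ Z₀, ∃ b ∈ B₀, c₀ * ip (z - b) (z - b) ≤ q z z) →
      ∀ η : ℝ, 0 ≤ η → η ≤ η₀ →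
      (∀ z ∈ Z₁, ∃ z' ∈ Z₀, ip (z - z') (z - z') ≤ η ^ 2 * ip z z) →
      (∀ b ∈ B₀, ∃ b' ∈ B₁, ip (b - b') (b - b') ≤ η ^ 2 * ip b b) →
      (∀ z ∈ Z₁, ∀ b ∈ B₁, q (z + b) (z + b) = q z z) →
      ∀ z ∈ Z₁, 0 ≤ q z z ∧ (q z z = 0 → z ∈ B₁) := by
  obtain ⟨η₀, hη₀, H⟩ := abs_pert_inner hc₀ hC
  refine ⟨η₀, hη₀, ?_⟩
  intro E _ _ _ ip hsymm hpos q hq Z₀ B₀ Z₁ B₁ hBZ hlow η hη hηη hz hb hinv
  let _ : NormedAddCommGroup E := (ipCore ip hsymm hpos).toNormedAddCommGroup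
  let _ : InnerProductSpace ℝ E := InnerProductSpace.ofCore (ipCore ip hsymm hpos).toCore
  have hn : ∀ x : E, ‖x‖ ^ 2 = ip x x := fun x => (real_inner_self_eq_norm_sq x).symm
  have hsq : ∀ x y : E, ip x x ≤ η ^ 2 * ip y y → ‖x‖ ≤ η * ‖y‖ := by
    intro x y hxy
    rw [← hn, ← hn, ← mul_pow] at hxy
    exact abs_le_of_sq_le_sq' hxy (by positivity) |>.2
  refine H E q ?_ Z₀ B₀ Z₁ B₁ hBZ ?_ η hη hηη ?_ ?_ hinv
  · intro x y
    have h1 := hq x y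
    rw [← hn, ← hn] at h1
    have h2 : q x y ^ 2 ≤ (C * (‖x‖ * ‖y‖)) ^ 2 := by
      calc q x y ^ 2 ≤ C ^ 2 * (‖x‖ ^ 2 * ‖y‖ ^ 2) := h1
        _ = (C * (‖x‖ * ‖y‖)) ^ 2 := by ring
    exact abs_le_of_sq_le_sq h2 (by positivity)
  · intro z hzz
    obtain ⟨b, hbB, hbl⟩ := hlow z hzz
    exact ⟨b, hbB, by rw [hn]; exact hbl⟩
  · intro z hzz
    obtain ⟨z', hz', h1⟩ := hz z hzz
    exact ⟨z', hz', hsq _ _ h1⟩
  · intro b hbb
    obtain ⟨b', hb', h1⟩ := hb b hbb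
    exact ⟨b', hb', hsq _ _ h1⟩

end Pool.Agent.H69.Loc
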