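import Pool.Agent.H69.Loc.LocDefs
import Pool.Agent.H85.Fold.LinkS

/-!
# Project FOLD2: folding matrices: rounding and diagonalization
-/

set_option autoImplicit false

open Finset Matrix

namespace Pool.Agent.H69.Loc

open Pool.Agent.H85.Fold

variable {V : Type} [DecidableEq V] [Fintype V]

/-- the unit vectors in `U` which are killed by the forms -/
private def sylvK (n : ℕ) (U : Finset V) (q : Fin n → V → ℝ) : Set (V → ℝ) :=
  {x | (∀ v, v ∉ U → x v = 0) ∧ ∑ v, x v ^ 2 = 1 ∧ ∀ i, ∑ v, q i v * x v = 0}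

omit [DecidableEq V] in
private theorem sylvK_le {n : ℕ} {U : Finset V} {q : Fin n → V → ℝ} {x : V → ℝ}
    (hx : ∑ v, x v ^ 2 = 1) (v : V) : |x v| ≤ 1 := by
  have h1 : x v ^ 2 ≤ ∑ v, x v ^ 2 :=
    Finset.single_le_sum (f := fun v => x v ^ 2) (fun i _ => sq_nonneg _) (Finset.mem_univ v)
  rw [hx] at h1
  exact (sq_le_one_iff_abs_le_one (x v)).mp h1

omit [DecidableEq V] in
private theorem sylvK_compact (n : ℕ) (U : Finset V) (q : Fin n → V → ℝ) :
    IsCompact (sylvK n U q) := by
  refine Metric.isCompact_of_isClosed_isBounded ?_ ?_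
  · have h1 : IsClosed {x : V → ℝ | ∀ v, v ∉ U → x v = 0} := by
      simp only [Set.setOf_forall]
      exact isClosed_iInter fun v => isClosed_iInter fun _ =>
        isClosed_eq (continuous_apply v) continuous_const
    have h2 : IsClosed {x : V → ℝ | ∑ v, x v ^ 2 = 1} :=
      isClosed_eq (by fun_prop) continuous_const
    have h3 : IsClosed {x : V → ℝ | ∀ i, ∑ v, q i v * x v = 0} := by
      simp only [Set.setOf_forall]
      exact isClosed_iInter fun i => isClosed_eq (by fun_prop) continuous_const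
    exact h1.inter (h2.inter h3)
  · refine (Metric.isBounded_closedBall (x := (0 : V → ℝ)) (r := 1)).subset ?_
    intro x hx
    rw [mem_closedBall_zero_iff, pi_norm_le_iff_of_nonneg zero_le_one]
    intro v
    rw [Real.norm_eq_abs]
    exact sylvK_le (n := n) (U := U) (q := q) hx.2.1 v

omit [DecidableEq V] in
private theorem sylv_gap {n : ℕ} {U : Finset V} {T : V → V → ℝ} {q : Fin n → V → ℝ}
    (h : ∀ x : V → ℝ, (∀ v, v ∉ U → x v = 0) → x ≠ 0 →
      (∀ i, ∑ v, q i v * x v = 0) → ∑ u, ∑ v, x u * x v * T u v < 0) :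
    ∃ c : ℝ, 0 < c ∧ ∀ x ∈ sylvK n U q, ∑ u, ∑ v, x u * x v * T u v ≤ -c := by
  rcases (sylvK n U q).eq_empty_or_nonempty with he | hne
  · exact ⟨1, one_pos, fun x hx => by rw [he] at hx; exact absurd hx (Set.notMem_empty x)⟩
  · obtain ⟨x, hx, hmax⟩ := (sylvK_compact n U q).exists_isMaxOn hne
      (f := fun x : V → ℝ => ∑ u, ∑ v, x u * x v * T u v) (by fun_prop)
    have hx0 : x ≠ 0 := by
      intro h0
      have := hx.2.1
      rw [h0] at this
      simp at this
    refine ⟨-∑ u, ∑ v, x u * x v * T u v, ?_, ?_⟩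
    · have := h x hx.1 hx0 hx.2.2
      linarith
    · intro y hy
      rw [neg_neg]
      exact hmax hy

/-- **Rounding.** A folding matrix may be chosen with integer entries. -/
theorem exists_int {G : SimpleGraph V} {n : ℕ} {U : Finset V} {T : V → V → ℝ}
    (hT : IsStrict G n U T) : ∃ T' : V → V → ℤ, IsStrict G n U fun u v => (T' u v : ℝ) := by
  classical
  obtain ⟨q, hq⟩ := hT.index
  obtain ⟨c, hc, hgap⟩ := sylv_gap hq
  obtain ⟨L, hL⟩ : ∃ L : ℝ, L * c > (Fintype.card V : ℝ) * Fintype.card V ∧ 0 < L := by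
    refine ⟨((Fintype.card V : ℝ) * Fintype.card V + 1) / c, ?_, by positivity⟩
    rw [div_mul_cancel₀ _ hc.ne']
    linarith
  obtain ⟨hL1, hL0⟩ := hL
  let T' : V → V → ℤ := fun u v =>
    if u ∈ U ∧ v ∈ U ∧ u ≠ v ∧ ¬ G.Adj u v then ⌊L * T u v⌋ else 0
  have hT'1 : ∀ u v, (u ∈ U ∧ v ∈ U ∧ u ≠ v ∧ ¬ G.Adj u v) → T' u v = ⌊L * T u v⌋ :=
    fun u v h => if_pos h
  have hT'2 : ∀ u v, ¬ (u ∈ U ∧ v ∈ U ∧ u ≠ v ∧ ¬ G.Adj u v) → T' u v = 0 :=
    fun u v h => if_neg h
  refine ⟨T', ?_, ?_, ?_, q, ?_⟩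
  · intro u v
    by_cases h : u ∈ U ∧ v ∈ U ∧ u ≠ v ∧ ¬ G.Adj u v
    · have h' : v ∈ U ∧ u ∈ U ∧ v ≠ u ∧ ¬ G.Adj v u :=
        ⟨h.2.1, h.1, h.2.2.1.symm, fun hh => h.2.2.2 hh.symm⟩
      change ((T' u v : ℤ) : ℝ) = (T' v u : ℤ)
      rw [hT'1 u v h, hT'1 v u h', hT.symm u v]
    · have h' : ¬ (v ∈ U ∧ u ∈ U ∧ v ≠ u ∧ ¬ G.Adj v u) := fun hh =>
        h ⟨hh.2.1, hh.1, hh.2.2.1.symm, fun hhh => hh.2.2.2 hhh.symm⟩
      change ((T' u v : ℤ) : ℝ) = (T' v u : ℤ)
      rw [hT'2 u v h, hT'2 v u h']
  · intro u _ v _ h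
    change ((T' u v : ℤ) : ℝ) = 0
    rw [hT'2 u v, Int.cast_zero]
    rintro ⟨-, -, h1, h2⟩
    rcases h with h | h
    · exact h1 h
    · exact h2 h
  · intro u hu v hv huv hadj
    change ((T' u v : ℤ) : ℝ) < 0
    rw [hT'1 u v ⟨hu, hv, huv, hadj⟩]
    have h1 : L * T u v < 0 := mul_neg_of_pos_of_neg hL0 (hT.neg u hu v hv huv hadj)
    exact lt_of_le_of_lt (Int.floor_le _) h1
  · intro x hxU hx0 hqx
    have hr : 0 < ∑ v, x v ^ 2 := by
      obtain ⟨v, hv⟩ := Function.ne_iff.mp hx0
      refine Finset.sum_pos' (fun i _ => sq_nonneg _) ⟨v, Finset.mem_univ v, ?_⟩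
      exact lt_of_le_of_ne (sq_nonneg _) (Ne.symm (pow_ne_zero 2 hv))
    set r := Real.sqrt (∑ v, x v ^ 2) with hrdef
    have hr0 : 0 < r := Real.sqrt_pos.mpr hr
    have hrsq : r ^ 2 = ∑ v, x v ^ 2 := Real.sq_sqrt hr.le
    let y : V → ℝ := fun v => r⁻¹ * x v
    have hyK : y ∈ sylvK n U q := by
      refine ⟨fun v hv => ?_, ?_, fun i => ?_⟩
      · simp only [y, hxU v hv, mul_zero]
      · simp only [y, mul_pow]
        rw [← Finset.mul_sum, ← hrsq, ← mul_pow, inv_mul_cancel₀ hr0.ne', one_pow]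
      · have : ∀ v, q i v * y v = r⁻¹ * (q i v * x v) := fun v => by simp only [y]; ring
        simp_rw [this]
        rw [← Finset.mul_sum, hqx i, mul_zero]
    have h1 := hgap y hyK
    have h2 : ∑ u, ∑ v, y u * y v * ((T' u v : ℤ) : ℝ) ≤
        L * ∑ u, ∑ v, y u * y v * T u v + (Fintype.card V : ℝ) * Fintype.card V := by
      have h3 : (Fintype.card V : ℝ) * Fintype.card V = ∑ u : V, ∑ v : V, (1 : ℝ) := by
        simp
      rw [h3, Finset.mul_sum, ← Finset.sum_add_distrib]
      refine Finset.sum_le_sum fun u _ => ?_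
      rw [Finset.mul_sum, ← Finset.sum_add_distrib]
      refine Finset.sum_le_sum fun v _ => ?_
      by_cases h : u ∈ U ∧ v ∈ U ∧ u ≠ v ∧ ¬ G.Adj u v
      · rw [hT'1 u v h]
        have h4 := Int.floor_le (L * T u v)
        have h5 := Int.lt_floor_add_one (L * T u v)
        have h6 : |y u * y v| ≤ 1 := by
          rw [abs_mul]
          exact mul_le_one₀ (sylvK_le (n := n) (U := U) (q := q) hyK.2.1 u) (abs_nonneg _)
            (sylvK_le (n := n) (U := U) (q := q) hyK.2.1 v)
        rw [abs_le] at h6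
        nlinarith
      · rw [hT'2 u v h]
        have h4 : y u * y v * T u v = 0 := by
          by_cases hu : u ∈ U
          · by_cases hv : v ∈ U
            · have h5 : u = v ∨ G.Adj u v := by
                by_contra h6
                rw [not_or] at h6
                exact h ⟨hu, hv, h6.1, h6.2⟩
              rw [hT.zero u hu v hv h5, mul_zero]
            · rw [hyK.1 v hv, mul_zero, zero_mul]
          · rw [hyK.1 u hu, zero_mul, zero_mul]
        rw [h4]
        simp
    have h3 : ∑ u, ∑ v, x u * x v * ((T' u v : ℤ) : ℝ) =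
        r ^ 2 * ∑ u, ∑ v, y u * y v * ((T' u v : ℤ) : ℝ) := by
      rw [Finset.mul_sum]
      refine Finset.sum_congr rfl fun u _ => ?_
      rw [Finset.mul_sum]
      refine Finset.sum_congr rfl fun v _ => ?_
      simp only [y]
      field_simp
    change ∑ u, ∑ v, x u * x v * ((T' u v : ℤ) : ℝ) < 0
    rw [h3]
    refine mul_neg_of_pos_of_neg (by positivity) ?_
    have h4 : L * ∑ u, ∑ v, y u * y v * T u v ≤ L * (-c) := mul_le_mul_of_nonneg_left h1 hL0.le
    linarith

/-- the folding matrix, extended by `-1` on the diagonal outside `U` -/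
def extT {R : Type} [Ring R] (U : Finset V) (T : V → V → R) : Matrix V V R := fun u v =>
  if u ∈ U ∧ v ∈ U then T u v else if u = v then -1 else 0

/-- extension by zero -/
private def sylvE (P : Finset V) : (P → ℝ) →ₗ[ℝ] (V → ℝ) where
  toFun c v := if h : v ∈ P then c ⟨v, h⟩ else 0
  map_add' c c' := by
    funext v
    by_cases h : v ∈ P <;> simp [h]
  map_smul' r c := by
    funext v
    by_cases h : v ∈ P <;> simp [h]

omit [Fintype V] in
private theorem sylvE_mem (P : Finset V) (c : P → ℝ) (v : V) (h : v ∈ P) :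
    sylvE P c v = c ⟨v, h⟩ := dif_pos h

omit [Fintype V] in
private theorem sylvE_notMem (P : Finset V) (c : P → ℝ) (v : V) (h : v ∉ P) :
    sylvE P c v = 0 := dif_neg h

omit [Fintype V] in
private theorem sylvE_inj (P : Finset V) (c : P → ℝ) (h : sylvE P c = 0) : c = 0 := by
  funext v
  have := congrFun h v.1
  rw [sylvE_mem P c v.1 v.2] at this
  exact this

omit [DecidableEq V] [Fintype V] in
private theorem sylv_cl_mono {G : SimpleGraph V} {σ τ : Finset V} (h : Cl G τ) (hs : σ ⊆ τ) :
    Cl G σ := fun a ha b hb hab => h a (hs ha) b (hs hb) hab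

omit [DecidableEq V] [Fintype V] in
private theorem sylv_cl_single {G : SimpleGraph V} (a : V) : Cl G {a} := by
  intro u hu w hw huw
  rw [Finset.mem_singleton] at hu hw
  exact absurd (hu.trans hw.symm) huw

/-- a vector of the radical is supported on every facet -/
private theorem sylv_facet {G : SimpleGraph V} {n : ℕ} {U : Finset V} {T : V → V → ℝ}
    (hT : IsStrict G n U T) (x : V → ℝ) (hx : ∀ v, v ∉ U → x v = 0)
    (h : ∀ v ∈ U, ∑ u, x u * T u v = 0) {τ : Finset V} (hτU : τ ⊆ U) (hτc : Cl G τ)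
    (hτn : τ.card = n) : ∀ v, v ∉ τ → x v = 0 := by
  obtain ⟨q, hq⟩ := hT.index
  let Q : Matrix (Fin n) V ℝ := fun i v => q i v
  let F : (τ → ℝ) →ₗ[ℝ] (Fin n → ℝ) := Q.mulVecLin ∘ₗ sylvE τ
  have hFa : ∀ c i, F c i = ∑ v, q i v * sylvE τ c v := fun c i => rfl
  -- the form vanishes on the vectors supported on the facet
  have hzero : ∀ c : τ → ℝ, ∑ u, ∑ v, sylvE τ c u * sylvE τ c v * T u v = 0 := by
    intro c
    refine Finset.sum_eq_zero fun u _ => Finset.sum_eq_zero fun v _ => ?_
    by_cases hu : u ∈ τ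
    · by_cases hv : v ∈ τ
      · rw [hT.zero u (hτU hu) v (hτU hv), mul_zero]
        by_cases huv : u = v
        · exact Or.inl huv
        · exact Or.inr (hτc u hu v hv huv)
      · rw [sylvE_notMem τ c v hv, mul_zero, zero_mul]
    · rw [sylvE_notMem τ c u hu, zero_mul, zero_mul]
  have hsuppE : ∀ c : τ → ℝ, ∀ v, v ∉ U → sylvE τ c v = 0 := fun c v hv =>
    sylvE_notMem τ c v fun hh => hv (hτU hh)
  have hinj : Function.Injective F := by
    rw [← LinearMap.ker_eq_bot, LinearMap.ker_eq_bot']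
    intro c hc
    by_contra hne
    have h1 := hq (sylvE τ c) (hsuppE c) (fun h0 => hne (sylvE_inj τ c h0))
      (fun i => by rw [← hFa, hc]; rfl)
    rw [hzero c] at h1
    exact lt_irrefl _ h1
  have hdim : Module.finrank ℝ (τ → ℝ) = Module.finrank ℝ (Fin n → ℝ) := by
    rw [Module.finrank_fintype_fun_eq_card, Module.finrank_fintype_fun_eq_card,
      Fintype.card_coe, Fintype.card_fin, hτn]
  have hsurj := (LinearMap.injective_iff_surjective_of_finrank_eq_finrank hdim).mp hinj
  obtain ⟨c, hc⟩ := hsurj (fun i => ∑ v, q i v * x v)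
  let e : V → ℝ := fun v => x v - sylvE τ c v
  have heU : ∀ v, v ∉ U → e v = 0 := by
    intro v hv
    simp only [e, hx v hv, hsuppE c v hv, sub_zero]
  have heq : ∀ i, ∑ v, q i v * e v = 0 := by
    intro i
    have := congrFun hc i
    rw [hFa] at this
    simp only [e, mul_sub, Finset.sum_sub_distrib]
    rw [this, sub_self]
  -- the radical
  have hrad : ∀ y : V → ℝ, (∀ v, v ∉ U → y v = 0) → ∑ u, ∑ v, x u * y v * T u v = 0 := by
    intro y hy
    rw [Finset.sum_comm]
    refine Finset.sum_eq_zero fun v _ => ?_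
    by_cases hv : v ∈ U
    · have h1 : ∀ u, x u * y v * T u v = y v * (x u * T u v) := fun u => by ring
      simp_rw [h1]
      rw [← Finset.mul_sum, h v hv, mul_zero]
    · refine Finset.sum_eq_zero fun u _ => ?_
      rw [hy v hv, mul_zero, zero_mul]
  have hee : ∑ u, ∑ v, e u * e v * T u v = 0 := by
    have h1 : ∀ u v, e u * e v * T u v = x u * e v * T u v - x v * sylvE τ c u * T v u +
        sylvE τ c u * sylvE τ c v * T u v := by
      intro u v
      rw [hT.symm v u]
      simp only [e]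
      ring
    simp_rw [h1, Finset.sum_add_distrib, Finset.sum_sub_distrib]
    rw [hrad e heU, hzero c, Finset.sum_comm (f := fun u v => x v * sylvE τ c u * T v u),
      hrad (sylvE τ c) (hsuppE c)]
    ring
  have he0 : e = 0 := by
    by_contra hne
    have := hq e heU hne heq
    rw [hee] at this
    exact lt_irrefl _ this
  intro v hv
  have := congrFun he0 v
  simp only [e, sylvE_notMem τ c v hv, sub_zero] at this
  exact this

/-- A folding matrix of a sphere is nonsingular: a vector of the radical is supported on every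
facet. -/
theorem strict_nondeg {ν : V → ℕ} {G : SimpleGraph V} {n : ℕ} {U : Finset V}
    {o : Finset V → ℝ} (hK : IsSphere ν G n U o) {T : V → V → ℝ} (hT : IsStrict G n U T)
    (x : V → ℝ) (hx : ∀ v, v ∉ U → x v = 0) (h : ∀ v ∈ U, ∑ u, x u * T u v = 0) : x = 0 := by
  funext v
  by_cases hv : v ∈ U
  · have hs : insert v (∅ : Finset V) ⊆ U := by
      rw [insert_empty_eq]
      exact Finset.singleton_subset_iff.mpr hv
    have hc : Cl G (insert v (∅ : Finset V)) := by
      rw [insert_empty_eq]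
      exact sylv_cl_single v
    obtain ⟨w, hwU, hwv, hna, -⟩ := hK.exists_ne (Finset.notMem_empty v) hs hc
    obtain ⟨τ, hτU, hτc, hτn, hwτ⟩ := hK.pure {w} (Finset.singleton_subset_iff.mpr hwU)
      (sylv_cl_single w)
    have hwτ' : w ∈ τ := hwτ (Finset.mem_singleton_self w)
    refine sylv_facet hT x hx h hτU hτc hτn v ?_
    intro hvτ
    exact hna (hτc v hvτ w hwτ' hwv.symm)
  · exact hx v hv

private theorem sylv_spec (M : Matrix V V ℝ) (hM : Mᵀ = M) :
    ∃ (O : Matrix V V ℝ) (lam : V → ℝ), O * Oᵀ = 1 ∧ Oᵀ * O = 1 ∧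
      M = O * Matrix.diagonal lam * Oᵀ := by
  have hA : M.IsHermitian := by
    unfold Matrix.IsHermitian
    rw [Matrix.conjTranspose_eq_transpose_of_trivial]
    exact hM
  have hstar : star (hA.eigenvectorUnitary : Matrix V V ℝ) =
      (hA.eigenvectorUnitary : Matrix V V ℝ)ᵀ := by
    rw [Matrix.star_eq_conjTranspose, Matrix.conjTranspose_eq_transpose_of_trivial]
  refine ⟨hA.eigenvectorUnitary, hA.eigenvalues, ?_, ?_, ?_⟩
  · rw [← hstar]
    exact Unitary.coe_mul_star_self hA.eigenvectorUnitary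
  · rw [← hstar]
    exact Unitary.coe_star_mul_self hA.eigenvectorUnitary
  · have h1 := hA.spectral_theorem
    rw [Unitary.conjStarAlgAut_apply] at h1
    rw [← hstar]
    exact h1

private theorem sylv_quad (U : Finset V) (T : V → V → ℝ) (x : V → ℝ) :
    ∑ u, ∑ v, x u * x v * extT U T u v =
      ∑ u, ∑ v, (if u ∈ U then x u else 0) * (if v ∈ U then x v else 0) * T u v -
        ∑ v, (if v ∈ U then 0 else x v ^ 2) := by
  have h1 : ∀ u v, x u * x v * extT U T u v =
      (if u ∈ U then x u else 0) * (if v ∈ U then x v else 0) * T u v -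
        (if u = v then (if v ∈ U then 0 else x v ^ 2) else 0) := by
    intro u v
    unfold extT
    by_cases hu : u ∈ U
    · by_cases hv : v ∈ U
      · simp [hu, hv]
      · have huv : u ≠ v := fun h => hv (h ▸ hu)
        simp [hu, hv, huv]
    · by_cases hv : v ∈ U
      · have huv : u ≠ v := fun h => hu (h ▸ hv)
        simp [hu, hv, huv]
      · by_cases huv : u = v
        · subst huv
          simp [hu]
          ring
        · simp [hu, hv, huv]
  simp_rw [h1, Finset.sum_sub_distrib]
  simp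

/-- **Diagonalization.** -/
theorem exists_sylv {ν : V → ℕ} {G : SimpleGraph V} {n : ℕ} {U : Finset V}
    {o : Finset V → ℝ} (hK : IsSphere ν G n U o) {T : V → V → ℝ} (hT : IsStrict G n U T) : ∃ (J : V → ℝ) (Y : Matrix V V ℝ), (∀ v, J v * J v = 1) ∧
      (univ.filter fun v => J v = 1).card ≤ n ∧ IsUnit Y ∧
        Y * Matrix.diagonal J * Yᵀ = extT U T := by
  classical
  have hsymm : (extT U T)ᵀ = extT U T := by
    ext u v
    rw [Matrix.transpose_apply]
    unfold extT
    by_cases h : u ∈ U ∧ v ∈ U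
    · rw [if_pos h, if_pos ⟨h.2, h.1⟩, hT.symm]
    · rw [if_neg h, if_neg fun hh => h ⟨hh.2, hh.1⟩]
      by_cases huv : u = v
      · rw [if_pos huv, if_pos huv.symm]
      · rw [if_neg huv, if_neg (Ne.symm huv)]
  have hker : ∀ x : V → ℝ, (extT U T) *ᵥ x = 0 → x = 0 := by
    intro x hx
    have h1 : ∀ v, ∑ u, extT U T v u * x u = 0 := fun v => congrFun hx v
    have hxU : ∀ v, v ∉ U → x v = 0 := by
      intro v hv
      have h2 := h1 v
      rw [Finset.sum_eq_single v] at h2
      · unfold extT at h2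
        rw [if_neg (fun hh => hv hh.1), if_pos rfl] at h2
        linarith
      · intro u _ huv
        unfold extT
        rw [if_neg (fun hh => hv hh.1), if_neg (Ne.symm huv), zero_mul]
      · intro hh
        exact absurd (Finset.mem_univ v) hh
    refine strict_nondeg hK hT x hxU fun v hv => ?_
    rw [← h1 v]
    refine Finset.sum_congr rfl fun u _ => ?_
    by_cases hu : u ∈ U
    · unfold extT
      rw [if_pos ⟨hv, hu⟩, hT.symm v u, mul_comm]
    · rw [hxU u hu, zero_mul, mul_zero]
  obtain ⟨O, lam, hO1, hO2, hM⟩ := sylv_spec (extT U T) hsymm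
  have hlam : ∀ v, lam v ≠ 0 := by
    intro v h0
    have h1 : (extT U T) *ᵥ (O *ᵥ Pi.single v 1) = 0 := by
      rw [hM, ← Matrix.mulVec_mulVec, ← Matrix.mulVec_mulVec, Matrix.mulVec_mulVec _ Oᵀ O, hO2,
        Matrix.one_mulVec, Matrix.diagonal_mulVec_single, h0, zero_mul, Pi.single_zero,
        Matrix.mulVec_zero]
    have h2 := hker _ h1
    have h3 : Oᵀ *ᵥ (O *ᵥ Pi.single v 1) = (Pi.single v 1 : V → ℝ) := by
      rw [Matrix.mulVec_mulVec, hO2, Matrix.one_mulVec]
    rw [h2, Matrix.mulVec_zero] at h3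
    have h4 := congrFun h3 v
    rw [Pi.single_eq_same, Pi.zero_apply] at h4
    exact zero_ne_one h4
  let J : V → ℝ := fun v => if 0 < lam v then 1 else -1
  let D : V → ℝ := fun v => Real.sqrt |lam v|
  have hD0 : ∀ v, D v ≠ 0 := fun v => (Real.sqrt_pos.mpr (abs_pos.mpr (hlam v))).ne'
  refine ⟨J, O * Matrix.diagonal D, ?_, ?_, ?_, ?_⟩
  · intro v
    by_cases h : 0 < lam v
    · simp only [J, if_pos h, mul_one]
    · simp only [J, if_neg h]
      ring
  · obtain ⟨q, hq⟩ := hT.index
    have hfil : (univ.filter fun v => J v = 1) = univ.filter fun v => 0 < lam v := by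
      ext v
      rw [Finset.mem_filter, Finset.mem_filter]
      refine and_congr_right fun _ => ?_
      by_cases h : 0 < lam v
      · simp only [J, if_pos h, h]
      · simp only [J, if_neg h, h, iff_false]
        norm_num
    rw [hfil]
    set P : Finset V := univ.filter fun v => 0 < lam v with hP
    by_contra hlt
    rw [not_le] at hlt
    let Q : Matrix (Fin n) V ℝ := fun i v => if v ∈ U then q i v else 0
    let F : (P → ℝ) →ₗ[ℝ] (Fin n → ℝ) := (Q * O).mulVecLin ∘ₗ sylvE P
    have hdim : Module.finrank ℝ (Fin n → ℝ) < Module.finrank ℝ (P → ℝ) := by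
      rw [Module.finrank_fintype_fun_eq_card, Module.finrank_fintype_fun_eq_card,
        Fintype.card_coe, Fintype.card_fin]
      exact hlt
    obtain ⟨c, hcF, hc0⟩ := (Submodule.ne_bot_iff _).mp
      (LinearMap.ker_ne_bot_of_finrank_lt (f := F) hdim)
    let x : V → ℝ := O *ᵥ sylvE P c
    have hx : Oᵀ *ᵥ x = sylvE P c := by
      simp only [x]
      rw [Matrix.mulVec_mulVec, hO2, Matrix.one_mulVec]
    have hx0 : x ≠ 0 := by
      intro h0
      rw [h0, Matrix.mulVec_zero] at hx
      exact hc0 (sylvE_inj P c hx.symm)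
    have hQx : Q *ᵥ x = 0 := by
      have h1 : (Q * O) *ᵥ sylvE P c = 0 := LinearMap.mem_ker.mp hcF
      rwa [← Matrix.mulVec_mulVec] at h1
    have hqx : ∀ i, ∑ v, q i v * (if v ∈ U then x v else 0) = 0 := by
      intro i
      have h1 : ∑ v, Q i v * x v = 0 := congrFun hQx i
      refine Eq.trans (Finset.sum_congr rfl fun v _ => ?_) h1
      by_cases hv : v ∈ U <;> simp [Q, hv]
    -- the form is negative on `x`
    have hneg : ∑ u, ∑ v, x u * x v * extT U T u v < 0 := by
      rw [sylv_quad]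
      by_cases h0 : (fun v => if v ∈ U then x v else 0) = 0
      · have h1 : ∀ v, (if v ∈ U then x v else 0) = 0 := fun v => congrFun h0 v
        simp_rw [h1]
        simp only [mul_zero, zero_mul, Finset.sum_const_zero, zero_sub, neg_lt_zero]
        obtain ⟨v, hv⟩ := Function.ne_iff.mp hx0
        have hvU : v ∉ U := by
          intro hh
          have := h1 v
          rw [if_pos hh] at this
          exact hv this
        refine Finset.sum_pos' (fun i _ => ?_) ⟨v, Finset.mem_univ v, ?_⟩
        · by_cases h : i ∈ U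
          · rw [if_pos h]
          · rw [if_neg h]
            exact sq_nonneg _
        · rw [if_neg hvU]
          exact lt_of_le_of_ne (sq_nonneg _) (Ne.symm (pow_ne_zero 2 hv))
      · have h1 := hq (fun v => if v ∈ U then x v else 0) (fun v hv => if_neg hv) h0 hqx
        have h2 : 0 ≤ ∑ v, (if v ∈ U then 0 else x v ^ 2) := by
          refine Finset.sum_nonneg fun v _ => ?_
          by_cases h : v ∈ U
          · rw [if_pos h]
          · rw [if_neg h]
            exact sq_nonneg _
        linarith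
    -- and nonnegative
    have hpos : 0 ≤ ∑ u, ∑ v, x u * x v * extT U T u v := by
      have h1 : ∑ u, ∑ v, x u * x v * extT U T u v = x ⬝ᵥ ((extT U T) *ᵥ x) := by
        simp only [dotProduct, Matrix.mulVec, Finset.mul_sum]
        refine Finset.sum_congr rfl fun u _ => Finset.sum_congr rfl fun v _ => ?_
        ring
      rw [h1, hM, ← Matrix.mulVec_mulVec, ← Matrix.mulVec_mulVec, hx, Matrix.dotProduct_mulVec,
        ← Matrix.mulVec_transpose, hx]
      simp only [dotProduct, Matrix.mulVec_diagonal]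
      refine Finset.sum_nonneg fun v _ => ?_
      by_cases h : v ∈ P
      · have h2 : 0 < lam v := by
          rw [hP, Finset.mem_filter] at h
          exact h.2
        have h3 : sylvE P c v * (lam v * sylvE P c v) = lam v * sylvE P c v ^ 2 := by ring
        rw [h3]
        positivity
      · rw [sylvE_notMem P c v h]
        simp
    linarith
  · have h1 : IsUnit O := IsUnit.of_mul_eq_one _ hO1
    have h2 : IsUnit (Matrix.diagonal D) := by
      rw [Matrix.isUnit_diagonal]
      rw [Pi.isUnit_iff]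
      exact fun v => (hD0 v).isUnit
    exact h1.mul h2
  · rw [Matrix.transpose_mul, Matrix.diagonal_transpose, hM]
    have h1 : O * Matrix.diagonal D * Matrix.diagonal J * (Matrix.diagonal D * Oᵀ) =
        O * (Matrix.diagonal D * Matrix.diagonal J * Matrix.diagonal D) * Oᵀ := by
      simp only [Matrix.mul_assoc]
    rw [h1, Matrix.diagonal_mul_diagonal, Matrix.diagonal_mul_diagonal]
    congr 2
    congr 1
    funext v
    have h2 : D v * D v = |lam v| := Real.mul_self_sqrt (abs_nonneg _)
    have h3 : D v * J v * D v = |lam v| * J v := by rw [← h2]; ring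
    rw [h3]
    by_cases h : 0 < lam v
    · simp only [J, if_pos h, mul_one]
      exact abs_of_pos h
    · simp only [J, if_neg h]
      rw [abs_of_nonpos (not_lt.mp h)]
      ring

end Pool.Agent.H69.Loc
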